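import Pool.Agent.Lib.MP_d0f9e0_co.Approx.Scale

/-!
# One normalization step contracts the deviations of the norms
-/

set_option autoImplicit false

open Finset
open scoped InnerProductSpace

namespace Pool.Agent.Lib.MP_d0f9e0_co.Approx

set_option linter.unusedSectionVars false

variable {E : Type*} [NormedAddCommGroup E] [InnerProductSpace ℂ E] [FiniteDimensional ℂ E]

theorem sum_norm_sq_of_tight {ι : Type*} [Fintype ι] {y : ι → E} {D : ℝ}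
    (ht : ∀ v : E, ∑ i, ‖⟪y i, v⟫_ℂ‖ ^ 2 = D * ‖v‖ ^ 2) :
    ∑ i, ‖y i‖ ^ 2 = D * Module.finrank ℂ E := by
  set b := stdOrthonormalBasis ℂ E
  have h1 : ∑ i, ‖y i‖ ^ 2 = ∑ i, ∑ k, ‖⟪y i, b k⟫_ℂ‖ ^ 2 :=
    Finset.sum_congr rfl fun i _ => (b.sum_sq_norm_inner_left (y i)).symm
  rw [h1, Finset.sum_comm]
  simp only [ht, b.orthonormal.1, one_pow, mul_one, Finset.sum_const, Finset.card_univ,
    Fintype.card_fin, nsmul_eq_mul]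
  ring

theorem contract {ι : Type*} [Fintype ι] [DecidableEq ι] (y : ι → E) {D Δ : ℝ} (hD : 16 ≤ D)
    (hfin : (Module.finrank ℂ E : ℝ) = D) (hcard : (Fintype.card ι : ℝ) = D ^ 2)
    (hΔ0 : 0 ≤ Δ) (hΔ : Δ ≤ 1 / 64) (ht : ∀ v : E, ∑ i, ‖⟪y i, v⟫_ℂ‖ ^ 2 = D * ‖v‖ ^ 2)
    (hδ : ∀ i, |‖y i‖ ^ 2 - 1| ≤ Δ)
    (hg : ∀ i j, i ≠ j → |‖⟪y i, y j⟫_ℂ‖ ^ 2 / (‖y i‖ ^ 2 * ‖y j‖ ^ 2) - 1 / D| ≤
      (1 / 8) / D) :
    ∃ B : E →L[ℂ] E, ‖B - 1‖ ≤ 2 * Δ ∧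
      (∀ v : E, ∑ i, ‖⟪B (((‖y i‖⁻¹ : ℝ) : ℂ) • y i), v⟫_ℂ‖ ^ 2 = D * ‖v‖ ^ 2) ∧
      ∀ j, |‖B (((‖y j‖⁻¹ : ℝ) : ℂ) • y j)‖ ^ 2 - 1| ≤ Δ / 2 := by
  have hD0 : 0 < D := by linarith
  set x : ι → E := fun i => ((‖y i‖⁻¹ : ℝ) : ℂ) • y i with hx
  have hy0 : ∀ i, 0 < ‖y i‖ ^ 2 := fun i => by
    have := (abs_le.1 (hδ i)).1
    linarith
  have hyn : ∀ i, 0 < ‖y i‖ := fun i => by
    have := hy0 i
    by_contra hc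
    have h2 : ‖y i‖ = 0 := le_antisymm (not_lt.1 hc) (norm_nonneg _)
    rw [h2] at this
    norm_num at this
  have hx1 : ∀ i, ‖x i‖ = 1 := fun i => by
    rw [hx]
    simp only
    rw [norm_smul, Complex.norm_real, norm_inv, norm_norm, inv_mul_cancel₀ (hyn i).ne']
  have hxy : ∀ i v, ‖⟪x i, v⟫_ℂ‖ ^ 2 = (‖y i‖ ^ 2)⁻¹ * ‖⟪y i, v⟫_ℂ‖ ^ 2 := by
    intro i v
    rw [hx]
    simp only
    rw [inner_smul_left, norm_mul, RCLike.norm_conj, Complex.norm_real, norm_inv, norm_norm,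
      mul_pow, inv_pow]
  have hinv : ∀ i, |(‖y i‖ ^ 2)⁻¹ - 1| ≤ 2 * Δ := by
    intro i
    have h1 : (‖y i‖ ^ 2)⁻¹ - 1 = -(‖y i‖ ^ 2 - 1) / ‖y i‖ ^ 2 := by
      field_simp [(hyn i).ne']
      ring
    rw [h1, abs_div, abs_neg, abs_of_pos (hy0 i), div_le_iff₀ (hy0 i)]
    have h2 := hδ i
    have h3 := (abs_le.1 h2).1
    nlinarith
  obtain ⟨B, hB1, hB2, hB3⟩ := exists_scale x (D := D) (γ := 2 * Δ) hD0 (by linarith)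
    (by linarith) (by
      intro v
      rw [← ht v, ← Finset.sum_sub_distrib]
      have h1 : ∀ i, ‖⟪x i, v⟫_ℂ‖ ^ 2 - ‖⟪y i, v⟫_ℂ‖ ^ 2 =
          ((‖y i‖ ^ 2)⁻¹ - 1) * ‖⟪y i, v⟫_ℂ‖ ^ 2 := by
        intro i; rw [hxy]; ring
      simp only [h1]
      refine (Finset.abs_sum_le_sum_abs _ _).trans ?_
      have h2 : D * (2 * Δ) * ‖v‖ ^ 2 = ∑ i, (2 * Δ) * ‖⟪y i, v⟫_ℂ‖ ^ 2 := by
        rw [← Finset.mul_sum, ht]; ring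
      rw [h2]
      apply Finset.sum_le_sum
      intro i _
      rw [abs_mul, abs_of_nonneg (by positivity : (0 : ℝ) ≤ ‖⟪y i, v⟫_ℂ‖ ^ 2)]
      exact mul_le_mul_of_nonneg_right (hinv i) (by positivity))
  refine ⟨B, hB1, hB2, fun j => ?_⟩
  have h1 := hB3 (x j)
  rw [hx1] at h1
  have hyx : ∀ i, ‖⟪y i, x j⟫_ℂ‖ ^ 2 = ‖y i‖ ^ 2 * ‖⟪x i, x j⟫_ℂ‖ ^ 2 := by
    intro i
    rw [hxy i (x j), ← mul_assoc, mul_inv_cancel₀ (hy0 i).ne', one_mul]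
  have hsum0 : ∑ i, (‖y i‖ ^ 2 - 1) = 0 := by
    rw [Finset.sum_sub_distrib, sum_norm_sq_of_tight ht, hfin]
    simp only [Finset.sum_const, Finset.card_univ, nsmul_eq_mul, mul_one]
    rw [hcard]
    ring
  have h2 : ∑ i, ‖⟪x i, x j⟫_ℂ‖ ^ 2 = D -
      ∑ i, (‖y i‖ ^ 2 - 1) * (‖⟪x i, x j⟫_ℂ‖ ^ 2 - 1 / D) := by
    have h3 := ht (x j)
    rw [hx1, one_pow, mul_one] at h3
    simp only [hyx] at h3
    have h4 : ∑ i, (‖y i‖ ^ 2 - 1) * (‖⟪x i, x j⟫_ℂ‖ ^ 2 - 1 / D) =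
        ∑ i, ‖y i‖ ^ 2 * ‖⟪x i, x j⟫_ℂ‖ ^ 2 - ∑ i, ‖⟪x i, x j⟫_ℂ‖ ^ 2 -
          (1 / D) * ∑ i, (‖y i‖ ^ 2 - 1) := by
      rw [Finset.mul_sum, ← Finset.sum_sub_distrib, ← Finset.sum_sub_distrib]
      apply Finset.sum_congr rfl
      intro i _
      ring
    rw [h4, h3, hsum0]
    ring
  have h5 : |∑ i, (‖y i‖ ^ 2 - 1) * (‖⟪x i, x j⟫_ℂ‖ ^ 2 - 1 / D)| ≤ Δ * (1 + D / 8) := by
    rw [← Finset.add_sum_erase _ _ (Finset.mem_univ j)]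
    refine (abs_add_le _ _).trans ?_
    have h6 : |(‖y j‖ ^ 2 - 1) * (‖⟪x j, x j⟫_ℂ‖ ^ 2 - 1 / D)| ≤ Δ := by
      have h7 : ‖⟪x j, x j⟫_ℂ‖ = 1 := by
        rw [inner_self_eq_norm_sq_to_K, hx1]
        simp
      rw [h7, abs_mul]
      have h8 : |(1 : ℝ) ^ 2 - 1 / D| ≤ 1 := by
        have h9 : 0 < 1 / D := by positivity
        have h10 : 1 / D ≤ 1 := by rw [div_le_one hD0]; linarith
        rw [abs_le]; constructor <;> linarith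
      calc |‖y j‖ ^ 2 - 1| * |(1 : ℝ) ^ 2 - 1 / D| ≤ Δ * 1 := by
            gcongr
            exact hδ j
        _ = Δ := mul_one Δ
    have h7 : |∑ i ∈ Finset.univ.erase j, (‖y i‖ ^ 2 - 1) * (‖⟪x i, x j⟫_ℂ‖ ^ 2 - 1 / D)| ≤
        D ^ 2 * (Δ * ((1 / 8) / D)) := by
      refine (Finset.abs_sum_le_sum_abs _ _).trans ?_
      have h8 : ∀ i ∈ Finset.univ.erase j,
          |(‖y i‖ ^ 2 - 1) * (‖⟪x i, x j⟫_ℂ‖ ^ 2 - 1 / D)| ≤ Δ * ((1 / 8) / D) := by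
        intro i hi
        rw [abs_mul]
        have h9 : ‖⟪x i, x j⟫_ℂ‖ ^ 2 = ‖⟪y i, y j⟫_ℂ‖ ^ 2 / (‖y i‖ ^ 2 * ‖y j‖ ^ 2) := by
          rw [hxy i (x j)]
          have : ‖⟪y i, x j⟫_ℂ‖ ^ 2 = (‖y j‖ ^ 2)⁻¹ * ‖⟪y i, y j⟫_ℂ‖ ^ 2 := by
            rw [norm_inner_symm, hxy j (y i), norm_inner_symm]
          rw [this]
          have h10 := (hy0 i).ne'
          have h11 := (hy0 j).ne'
          rw [← mul_assoc, ← mul_inv, div_eq_inv_mul]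
        rw [h9]
        exact mul_le_mul (hδ i) (hg i j (Finset.ne_of_mem_erase hi)) (abs_nonneg _) hΔ0
      refine (Finset.sum_le_card_nsmul _ _ _ h8).trans ?_
      rw [nsmul_eq_mul]
      apply mul_le_mul_of_nonneg_right _ (by positivity)
      rw [← hcard]
      exact_mod_cast Finset.card_le_univ _
    have h8 : D ^ 2 * (Δ * ((1 / 8) / D)) = Δ * (D / 8) := by
      field_simp
    rw [h8] at h7
    linarith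
  rw [h2] at h1
  have h6 : 1 / D * (D - ∑ i, (‖y i‖ ^ 2 - 1) * (‖⟪x i, x j⟫_ℂ‖ ^ 2 - 1 / D)) =
      1 - (∑ i, (‖y i‖ ^ 2 - 1) * (‖⟪x i, x j⟫_ℂ‖ ^ 2 - 1 / D)) / D := by
    field_simp
  rw [h6] at h1
  have h7 : |(∑ i, (‖y i‖ ^ 2 - 1) * (‖⟪x i, x j⟫_ℂ‖ ^ 2 - 1 / D)) / D| ≤ Δ * (3 / 16) := by
    rw [abs_div, abs_of_pos hD0, div_le_iff₀ hD0]
    refine h5.trans ?_
    nlinarith
  have h8 : 2 * (2 * Δ) ^ 2 * 1 ^ 2 ≤ Δ * (1 / 8) := by nlinarith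
  rw [abs_le] at h1 h7 ⊢
  constructor <;> linarith [h1.1, h1.2, h7.1, h7.2]

end Pool.Agent.Lib.MP_d0f9e0_co.Approx
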