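import Mathlib

/-!
# Random subsets with prescribed sums
-/

set_option autoImplicit false

open Finset

namespace Pool.Agent.Lib.MP_d0f9e0_co.Approx

theorem factor_le {p θ c : ℝ} (hp0 : 0 ≤ p) (hθ0 : 0 ≤ θ) (hθ1 : θ ≤ 1) (hc : |c| ≤ 1) :
    p * Real.exp (θ * c) + (1 - p) ≤ Real.exp (p * (θ * c) + p * θ ^ 2) := by
  have h1 : |θ * c| ≤ 1 := by
    rw [abs_mul, abs_of_nonneg hθ0]
    calc θ * |c| ≤ 1 * 1 := by gcongr
      _ = 1 := one_mul 1
  have h2 := Real.abs_exp_sub_one_sub_id_le h1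
  have h3 : Real.exp (θ * c) ≤ 1 + θ * c + (θ * c) ^ 2 := by
    have := (abs_le.1 h2).2
    linarith
  have h4 : (θ * c) ^ 2 ≤ θ ^ 2 := by
    rw [mul_pow]
    have : c ^ 2 ≤ 1 := by rw [← sq_abs]; exact pow_le_one₀ (abs_nonneg c) hc
    calc θ ^ 2 * c ^ 2 ≤ θ ^ 2 * 1 := by gcongr
      _ = _ := mul_one _
  have h5 : p * Real.exp (θ * c) ≤ p * (1 + θ * c + θ ^ 2) := by
    apply mul_le_mul_of_nonneg_left _ hp0
    linarith
  have h6 := Real.add_one_le_exp (p * (θ * c) + p * θ ^ 2)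
  linarith

theorem deletion {α J : Type*} [Fintype J] (D : Finset α) (c : J → α → ℝ)
    (hc : ∀ j x, |c j x| ≤ 1) {p θ t : ℝ} (hp0 : 0 ≤ p) (hp1 : p ≤ 1) (hθ0 : 0 ≤ θ)
    (hθ1 : θ ≤ 1)
    (h : (Fintype.card J : ℝ) * Real.exp (p * D.card * θ ^ 2 - θ * t) < 1) :
    ∃ T ⊆ D, ∀ j, ∑ x ∈ T, c j x - p * ∑ x ∈ D, c j x < t := by
  classical
  by_contra hcon
  push Not at hcon
  -- the weights
  let w : Finset α → ℝ := fun T => (∏ _x ∈ T, p) * ∏ _x ∈ D \ T, (1 - p)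
  have hw0 : ∀ T, 0 ≤ w T := fun T => by
    simp only [w]
    apply mul_nonneg <;> apply Finset.prod_nonneg <;> intro _ _ <;> linarith
  have hw1 : ∑ T ∈ D.powerset, w T = 1 := by
    simp only [w]
    rw [← Finset.prod_add]
    simp
  have h1 : ∀ T ∈ D.powerset,
      1 ≤ ∑ j, Real.exp (θ * (∑ x ∈ T, c j x - p * ∑ x ∈ D, c j x - t)) := by
    intro T hT
    obtain ⟨j, hj⟩ := hcon T (Finset.mem_powerset.1 hT)
    have h2 : 1 ≤ Real.exp (θ * (∑ x ∈ T, c j x - p * ∑ x ∈ D, c j x - t)) := by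
      apply Real.one_le_exp
      apply mul_nonneg hθ0
      linarith
    exact h2.trans (Finset.single_le_sum
      (f := fun j => Real.exp (θ * (∑ x ∈ T, c j x - p * ∑ x ∈ D, c j x - t)))
      (fun _ _ => (Real.exp_pos _).le) (Finset.mem_univ j))
  have h2 : (1 : ℝ) ≤ ∑ T ∈ D.powerset, w T *
      ∑ j, Real.exp (θ * (∑ x ∈ T, c j x - p * ∑ x ∈ D, c j x - t)) := by
    rw [← hw1]
    apply Finset.sum_le_sum
    intro T hT
    have := mul_le_mul_of_nonneg_left (h1 T hT) (hw0 T)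
    rwa [mul_one] at this
  have h3 : ∀ j, ∑ T ∈ D.powerset, w T *
      Real.exp (θ * (∑ x ∈ T, c j x - p * ∑ x ∈ D, c j x - t)) ≤
      Real.exp (p * D.card * θ ^ 2 - θ * t) := by
    intro j
    have e1 : ∀ T ∈ D.powerset, w T *
        Real.exp (θ * (∑ x ∈ T, c j x - p * ∑ x ∈ D, c j x - t)) =
        Real.exp (-(θ * (p * ∑ x ∈ D, c j x) + θ * t)) *
          ((∏ x ∈ T, p * Real.exp (θ * c j x)) * ∏ _x ∈ D \ T, (1 - p)) := by
      intro T _
      simp only [w]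
      rw [Finset.prod_mul_distrib, ← Real.exp_sum, ← Finset.mul_sum]
      have e2 : θ * (∑ x ∈ T, c j x - p * ∑ x ∈ D, c j x - t) =
          -(θ * (p * ∑ x ∈ D, c j x) + θ * t) + θ * ∑ x ∈ T, c j x := by ring
      rw [e2, Real.exp_add]
      ring
    rw [Finset.sum_congr rfl e1, ← Finset.mul_sum, ← Finset.prod_add]
    have e3 : ∏ x ∈ D, (p * Real.exp (θ * c j x) + (1 - p)) ≤
        Real.exp (∑ x ∈ D, (p * (θ * c j x) + p * θ ^ 2)) := by
      rw [Real.exp_sum]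
      apply Finset.prod_le_prod
      · intro x _
        have := Real.exp_pos (θ * c j x)
        have : 0 ≤ p * Real.exp (θ * c j x) := by positivity
        linarith
      · intro x _
        exact factor_le hp0 hθ0 hθ1 (hc j x)
    calc _ ≤ Real.exp (-(θ * (p * ∑ x ∈ D, c j x) + θ * t)) *
          Real.exp (∑ x ∈ D, (p * (θ * c j x) + p * θ ^ 2)) := by gcongr
      _ = Real.exp (p * D.card * θ ^ 2 - θ * t) := by
        rw [← Real.exp_add]
        congr 1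
        rw [Finset.sum_add_distrib, ← Finset.mul_sum, ← Finset.mul_sum, Finset.sum_const,
          nsmul_eq_mul]
        ring
  have h4 : ∑ T ∈ D.powerset, w T *
      ∑ j, Real.exp (θ * (∑ x ∈ T, c j x - p * ∑ x ∈ D, c j x - t)) ≤
      (Fintype.card J : ℝ) * Real.exp (p * D.card * θ ^ 2 - θ * t) := by
    have e5 : ∑ T ∈ D.powerset, w T *
        ∑ j, Real.exp (θ * (∑ x ∈ T, c j x - p * ∑ x ∈ D, c j x - t)) =
        ∑ j, ∑ T ∈ D.powerset, w T *
          Real.exp (θ * (∑ x ∈ T, c j x - p * ∑ x ∈ D, c j x - t)) := by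
      rw [Finset.sum_comm]
      apply Finset.sum_congr rfl
      intro T _
      rw [Finset.mul_sum]
    rw [e5]
    calc _ ≤ ∑ _j : J, Real.exp (p * D.card * θ ^ 2 - θ * t) :=
          Finset.sum_le_sum fun j _ => h3 j
      _ = _ := by rw [Finset.sum_const, nsmul_eq_mul, Finset.card_univ]
  linarith

end Pool.Agent.Lib.MP_d0f9e0_co.Approx
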