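import Mathlib

/-!
# Rank one perturbations of Hermitian matrices: traces of powers
-/

set_option autoImplicit false

open Matrix Finset

namespace Pool.Agent.Lib.MP_d0f9e0_co.Approx

variable {d : ℕ}

/-- the quadratic form of a matrix -/
def qf (A : Matrix (Fin d) (Fin d) ℂ) (x : Fin d → ℂ) : ℂ := star x ⬝ᵥ (A *ᵥ x)

/-- the rank one matrix of a vector -/
def rk (x : Fin d → ℂ) : Matrix (Fin d) (Fin d) ℂ := vecMulVec x (star x)

theorem rk_mulVec (x v : Fin d → ℂ) : rk x *ᵥ v = (star x ⬝ᵥ v) • x := by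
  unfold rk
  ext i
  simp only [mulVec, dotProduct, vecMulVec_apply, Pi.smul_apply, smul_eq_mul, Pi.star_apply]
  rw [Finset.sum_mul]
  apply Finset.sum_congr rfl
  intro j _
  ring

theorem qf_mul_rk_mul (A B : Matrix (Fin d) (Fin d) ℂ) (x : Fin d → ℂ) :
    qf (A * rk x * B) x = qf A x * qf B x := by
  unfold qf
  rw [← mulVec_mulVec, ← mulVec_mulVec, rk_mulVec, mulVec_smul, dotProduct_smul, smul_eq_mul]
  ring

theorem qf_add (A B : Matrix (Fin d) (Fin d) ℂ) (x : Fin d → ℂ) :
    qf (A + B) x = qf A x + qf B x := by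
  unfold qf
  rw [add_mulVec, dotProduct_add]

theorem trace_mul_rk (A : Matrix (Fin d) (Fin d) ℂ) (x : Fin d → ℂ) :
    (A * rk x).trace = qf A x := by
  unfold qf rk
  simp only [trace, diag_apply, mul_apply, vecMulVec_apply, dotProduct, mulVec, Pi.star_apply]
  apply Finset.sum_congr rfl
  intro i _
  rw [Finset.mul_sum]
  apply Finset.sum_congr rfl
  intro j _
  ring

theorem trace_pow_sub (C : Matrix (Fin d) (Fin d) ℂ) (x : Fin d → ℂ) (n : ℕ) :
    ((C + rk x) ^ n).trace = (C ^ n).trace +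
      ∑ j ∈ range n, qf ((C + rk x) ^ j * C ^ (n - 1 - j)) x := by
  have h1 : ∀ j ∈ range n, qf ((C + rk x) ^ j * C ^ (n - 1 - j)) x =
      ((C ^ (n - (j + 1)) * (C + rk x) ^ (j + 1)).trace -
        (C ^ (n - j) * (C + rk x) ^ j).trace) := by
    intro j hj
    rw [Finset.mem_range] at hj
    obtain ⟨k, hk⟩ : ∃ k, n = j + 1 + k := ⟨n - (j + 1), by omega⟩
    have e1 : n - 1 - j = k := by omega
    have e2 : n - (j + 1) = k := by omega
    have e3 : n - j = k + 1 := by omega
    rw [e1, e2, e3, ← trace_mul_rk, ← trace_sub]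
    have e4 : C ^ k * (C + rk x) ^ (j + 1) - C ^ (k + 1) * (C + rk x) ^ j =
        C ^ k * rk x * (C + rk x) ^ j := by
      rw [pow_succ' (C + rk x) j, pow_succ C k]
      noncomm_ring
    rw [e4, trace_mul_comm (C ^ k * rk x), ← Matrix.mul_assoc]
  rw [Finset.sum_congr rfl h1, Finset.sum_range_sub (fun j =>
    (C ^ (n - j) * (C + rk x) ^ j).trace)]
  simp

/-- the recursion of the mixed moments -/
noncomputable def uR (h : ℕ → ℝ) : ℕ → ℕ → ℝ
  | 0, b => h b
  | a + 1, b => uR h a (b + 1) + uR h a 0 * h b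

theorem uR_eq {C : Matrix (Fin d) (Fin d) ℂ} {x : Fin d → ℂ} {h : ℕ → ℝ}
    (hh : ∀ b, qf (C ^ b) x = (h b : ℂ)) (a : ℕ) : ∀ b,
    qf ((C + rk x) ^ a * C ^ b) x = (uR h a b : ℂ) := by
  induction a with
  | zero => intro b; rw [pow_zero, Matrix.one_mul, hh]; rfl
  | succ a ih =>
    intro b
    have e1 : (C + rk x) ^ (a + 1) * C ^ b =
        (C + rk x) ^ a * C ^ (b + 1) + (C + rk x) ^ a * rk x * C ^ b := by
      rw [pow_succ (C + rk x) a, pow_succ' C b]
      noncomm_ring
    rw [e1, qf_add, qf_mul_rk_mul, ih, hh]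
    have h0 := ih 0
    rw [pow_zero, Matrix.mul_one] at h0
    rw [h0, uR]
    push_cast
    ring

theorem uR_nonneg {h : ℕ → ℝ} (hh : ∀ b, 0 ≤ h b) (a : ℕ) : ∀ b, 0 ≤ uR h a b := by
  induction a with
  | zero => exact hh
  | succ a ih => intro b; exact add_nonneg (ih _) (mul_nonneg (ih _) (hh _))

theorem le_uR {h : ℕ → ℝ} (hh : ∀ b, 0 ≤ h b) (a : ℕ) : ∀ b, h (a + b) ≤ uR h a b := by
  induction a with
  | zero => intro b; rw [Nat.zero_add]; exact le_rfl
  | succ a ih =>
    intro b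
    have h1 := ih (b + 1)
    have h2 := mul_nonneg (uR_nonneg hh a 0) (hh b)
    have e : a + 1 + b = a + (b + 1) := by ring
    rw [e, uR]
    linarith

/-- Chebyshev's inequality with weights -/
theorem cheb {ι : Type*} [Fintype ι] {w f g : ι → ℝ} (hw : ∀ i, 0 ≤ w i) (hw1 : ∑ i, w i = 1)
    (hfg : ∀ i j, 0 ≤ (f i - f j) * (g i - g j)) :
    (∑ i, w i * f i) * (∑ i, w i * g i) ≤ ∑ i, w i * (f i * g i) := by
  have h1 : 0 ≤ ∑ i, ∑ j, w i * w j * ((f i - f j) * (g i - g j)) :=
    Finset.sum_nonneg fun i _ => Finset.sum_nonneg fun j _ =>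
      mul_nonneg (mul_nonneg (hw i) (hw j)) (hfg i j)
  have h2 : ∑ i, ∑ j, w i * w j * ((f i - f j) * (g i - g j)) =
      2 * (∑ i, w i * (f i * g i)) - 2 * ((∑ i, w i * f i) * (∑ i, w i * g i)) := by
    have e1 : ∀ i j, w i * w j * ((f i - f j) * (g i - g j)) =
        w i * (f i * g i) * w j + w i * (w j * (f j * g j)) -
        (w i * f i) * (w j * g j) - (w i * g i) * (w j * f j) := by
      intro i j; ring
    simp only [e1, Finset.sum_sub_distrib, Finset.sum_add_distrib, ← Finset.mul_sum,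
      ← Finset.sum_mul, hw1]
    ring
  linarith

theorem uR_le {ι : Type*} [Fintype ι] {w l : ι → ℝ} (hw : ∀ i, 0 ≤ w i) (hw1 : ∑ i, w i = 1)
    (hl : ∀ i, 0 ≤ l i) (a : ℕ) : ∀ b, uR (fun b => ∑ i, w i * l i ^ b) a b ≤
      ∑ i, w i * ((l i + 1) ^ a * l i ^ b) := by
  induction a with
  | zero => intro b; simp [uR]
  | succ a ih =>
    intro b
    rw [uR]
    have h1 := ih (b + 1)
    have h2 := ih 0
    simp only [pow_zero, mul_one] at h2
    have h3 : 0 ≤ ∑ i, w i * l i ^ b :=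
      Finset.sum_nonneg fun i _ => mul_nonneg (hw i) (pow_nonneg (hl i) b)
    have h4 : (∑ i, w i * (l i + 1) ^ a) * (∑ i, w i * l i ^ b) ≤
        ∑ i, w i * ((l i + 1) ^ a * l i ^ b) := by
      apply cheb hw hw1
      intro i j
      rcases le_total (l i) (l j) with h | h
      · apply mul_nonneg_of_nonpos_of_nonpos
        · have := pow_le_pow_left₀ (by linarith [hl i]) (by linarith : l i + 1 ≤ l j + 1) a
          linarith
        · have := pow_le_pow_left₀ (hl i) h b
          linarith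
      · apply mul_nonneg
        · have := pow_le_pow_left₀ (by linarith [hl j]) (by linarith : l j + 1 ≤ l i + 1) a
          linarith
        · have := pow_le_pow_left₀ (hl j) h b
          linarith
    have h5 := mul_le_mul_of_nonneg_right h2 h3
    have h6 : ∑ i, w i * ((l i + 1) ^ (a + 1) * l i ^ b) =
        ∑ i, w i * ((l i + 1) ^ a * l i ^ (b + 1)) + ∑ i, w i * ((l i + 1) ^ a * l i ^ b) := by
      rw [← Finset.sum_add_distrib]
      apply Finset.sum_congr rfl
      intro i _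
      ring
    rw [h6]
    linarith

/-- `A` is diagonal with real entries `f` in the orthonormal basis given by `U` -/
def IsDiag (U : Matrix (Fin d) (Fin d) ℂ) (f : Fin d → ℝ) (A : Matrix (Fin d) (Fin d) ℂ) :
    Prop := A = U * diagonal (fun i => (f i : ℂ)) * star U

section diag

variable {U A B : Matrix (Fin d) (Fin d) ℂ} {f g : Fin d → ℝ}

theorem IsDiag.add (hA : IsDiag U f A) (hB : IsDiag U g B) :
    IsDiag U (fun i => f i + g i) (A + B) := by
  unfold IsDiag at *
  rw [hA, hB, ← Matrix.add_mul, ← Matrix.mul_add, diagonal_add]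
  push_cast
  rfl

theorem IsDiag.sub (hA : IsDiag U f A) (hB : IsDiag U g B) :
    IsDiag U (fun i => f i - g i) (A - B) := by
  unfold IsDiag at *
  rw [hA, hB, ← Matrix.sub_mul, ← Matrix.mul_sub, diagonal_sub]
  push_cast
  rfl

theorem IsDiag.const (hU : U * star U = 1) (c : ℝ) :
    IsDiag U (fun _ => c) ((c : ℂ) • (1 : Matrix (Fin d) (Fin d) ℂ)) := by
  unfold IsDiag
  have : diagonal (fun _ : Fin d => (c : ℂ)) = (c : ℂ) • (1 : Matrix (Fin d) (Fin d) ℂ) := by
    rw [← diagonal_one, ← diagonal_smul]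
    congr 1
    ext i; simp
  rw [this, Matrix.mul_smul, Matrix.smul_mul, Matrix.mul_one, hU]

theorem IsDiag.mul (hU : star U * U = 1) (hA : IsDiag U f A) (hB : IsDiag U g B) :
    IsDiag U (fun i => f i * g i) (A * B) := by
  unfold IsDiag at *
  rw [hA, hB]
  have : U * diagonal (fun i => (f i : ℂ)) * star U * (U * diagonal (fun i => (g i : ℂ)) *
      star U) = U * diagonal (fun i => (f i : ℂ)) * (star U * U) *
      diagonal (fun i => (g i : ℂ)) * star U := by
    simp only [Matrix.mul_assoc]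
  rw [this, hU, Matrix.mul_one, Matrix.mul_assoc U, diagonal_mul_diagonal]
  push_cast
  rfl

theorem IsDiag.pow (hU1 : U * star U = 1) (hU : star U * U = 1) (hA : IsDiag U f A) (n : ℕ) :
    IsDiag U (fun i => f i ^ n) (A ^ n) := by
  induction n with
  | zero =>
    have := IsDiag.const (U := U) hU1 1
    simpa using this
  | succ n ih =>
    simp only [pow_succ]
    exact ih.mul hU hA

theorem IsDiag.trace (hU : star U * U = 1) (hA : IsDiag U f A) :
    A.trace = ((∑ i, f i : ℝ) : ℂ) := by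
  unfold IsDiag at hA
  rw [hA, trace_mul_comm, ← Matrix.mul_assoc, hU, Matrix.one_mul, trace_diagonal]
  push_cast
  rfl

/-- the weights of a vector -/
noncomputable def wt (U : Matrix (Fin d) (Fin d) ℂ) (x : Fin d → ℂ) (i : Fin d) : ℝ :=
  ‖(star U *ᵥ x) i‖ ^ 2

theorem wt_nonneg (U : Matrix (Fin d) (Fin d) ℂ) (x : Fin d → ℂ) (i : Fin d) :
    0 ≤ wt U x i := by unfold wt; positivity

theorem star_dot_self (v : Fin d → ℂ) : star v ⬝ᵥ v = ((∑ i, ‖v i‖ ^ 2 : ℝ) : ℂ) := by
  simp only [dotProduct, Pi.star_apply]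
  push_cast
  apply Finset.sum_congr rfl
  intro i _
  rw [← Complex.conj_mul']
  rfl

theorem IsDiag.qf (hA : IsDiag U f A) (x : Fin d → ℂ) :
    qf A x = ((∑ i, wt U x i * f i : ℝ) : ℂ) := by
  unfold IsDiag at hA
  unfold Approx.qf
  rw [hA, ← mulVec_mulVec, ← mulVec_mulVec, dotProduct_mulVec]
  have h1 : star x ᵥ* U = star (star U *ᵥ x) := by
    rw [star_mulVec, star_eq_conjTranspose, conjTranspose_conjTranspose]
  rw [h1]
  simp only [dotProduct, Pi.star_apply, mulVec_diagonal, wt]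
  push_cast
  apply Finset.sum_congr rfl
  intro i _
  rw [← Complex.conj_mul']
  change (starRingEnd ℂ) _ * _ = _
  ring

theorem sum_wt (hU : U * star U = 1) (x : Fin d → ℂ) :
    ((∑ i, wt U x i : ℝ) : ℂ) = star x ⬝ᵥ x := by
  have h := (IsDiag.const (U := U) hU 1).qf x
  simp only [mul_one] at h
  rw [← h]
  unfold Approx.qf
  simp

end diag

/-- Hermitian matrices are diagonalizable -/
theorem exists_diag {Z : Matrix (Fin d) (Fin d) ℂ} (hZ : Z.IsHermitian) :
    ∃ (U : Matrix (Fin d) (Fin d) ℂ) (z : Fin d → ℝ), U * star U = 1 ∧ star U * U = 1 ∧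
      IsDiag U z Z := by
  refine ⟨(hZ.eigenvectorUnitary : Matrix (Fin d) (Fin d) ℂ), hZ.eigenvalues, ?_, ?_, ?_⟩
  · exact Unitary.coe_mul_star_self _
  · exact Unitary.coe_star_mul_self _
  · have h := hZ.spectral_theorem
    rw [Unitary.conjStarAlgAut_apply] at h
    exact h

end Pool.Agent.Lib.MP_d0f9e0_co.Approx
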