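import Pool.Agent.Lib.MP_d0f9e0_co.Approx.Diag

/-!
# Small perturbations make the rank one matrices linearly independent
-/

set_option autoImplicit false

open Finset Matrix Polynomial

namespace Pool.Agent.Lib.MP_d0f9e0_co.Approx

variable {d : ℕ}

theorem polar (u v : Fin d → ℂ) : vecMulVec u (star v) =
    (1 / 4 : ℂ) • (rk (u + v) + Complex.I • rk (u + Complex.I • v) - rk (u - v) -
      Complex.I • rk (u - Complex.I • v)) := by
  ext a b
  simp only [rk, vecMulVec_apply, Matrix.smul_apply, Matrix.add_apply, Matrix.sub_apply,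
    Pi.add_apply, Pi.sub_apply, Pi.smul_apply, Pi.star_apply, smul_eq_mul, star_add, star_sub,
    star_mul', RCLike.star_def, Complex.conj_I]
  have h : Complex.I * Complex.I = -1 := Complex.I_mul_I
  linear_combination (1 / 4 : ℂ) * (2 * u a * (starRingEnd ℂ) (v b) -
    2 * v a * (starRingEnd ℂ) (u b)) * h

theorem span_rk : (⊤ : Submodule ℂ (Matrix (Fin d) (Fin d) ℂ)) ≤
    Submodule.span ℂ (Set.range (rk (d := d))) := by
  intro A _
  have hr : ∀ w : Fin d → ℂ, rk w ∈ Submodule.span ℂ (Set.range (rk (d := d))) := fun w =>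
    Submodule.subset_span ⟨w, rfl⟩
  rw [Matrix.matrix_eq_sum_single A]
  apply Submodule.sum_mem
  intro i _
  apply Submodule.sum_mem
  intro j _
  have h1 : Matrix.single i j (A i j) = A i j • vecMulVec (Pi.single i (1 : ℂ))
      (star (Pi.single j (1 : ℂ))) := by
    ext a b
    simp only [Matrix.single_apply, Matrix.smul_apply, vecMulVec_apply, Pi.star_apply,
      Pi.single_apply, smul_eq_mul]
    by_cases h1 : i = a <;> by_cases h2 : j = b
    · subst h1; subst h2; simp
    · simp [h2, Ne.symm h2]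
    · simp [h1, Ne.symm h1]
    · simp [h1, Ne.symm h1]
  rw [h1, polar]
  apply Submodule.smul_mem
  apply Submodule.smul_mem
  exact Submodule.sub_mem _ (Submodule.sub_mem _ (Submodule.add_mem _ (hr _)
    (Submodule.smul_mem _ _ (hr _))) (hr _)) (Submodule.smul_mem _ _ (hr _))

theorem exists_basis_rk {ι : Type*} [Fintype ι] (hι : Fintype.card ι = d ^ 2) :
    ∃ w : ι → Fin d → ℂ, LinearIndependent ℂ (fun i => rk (w i)) := by
  classical
  set b := Module.Basis.ofSpan (span_rk (d := d)) with hb
  have hfin : Finite ((linearIndepOn_empty ℂ id).extend (Set.empty_subset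
      (Set.range (rk (d := d))))) := Module.Finite.finite_basis b
  have : Fintype ((linearIndepOn_empty ℂ id).extend (Set.empty_subset
      (Set.range (rk (d := d))))) := Fintype.ofFinite _
  have h1 : Fintype.card ι = Fintype.card ((linearIndepOn_empty ℂ id).extend (Set.empty_subset
      (Set.range (rk (d := d))))) := by
    rw [← Module.finrank_eq_card_basis b, Module.finrank_matrix, Fintype.card_fin,
      Module.finrank_self, hι]
    ring
  let e := Fintype.equivOfCardEq h1
  have h2 : ∀ i, ∃ w, rk w = b (e i) := by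
    intro i
    have := Module.Basis.ofSpan_subset (span_rk (d := d)) ⟨e i, rfl⟩
    exact this
  choose w hw using h2
  refine ⟨w, ?_⟩
  simp only [hw]
  exact b.linearIndependent.comp e e.injective

section det

variable {ι : Type*} [Fintype ι] [DecidableEq ι]

/-- the square matrix whose rows are the entries of the rank one matrices -/
def MM (e : ι ≃ Fin d × Fin d) (x : ι → Fin d → ℂ) : Matrix ι ι ℂ :=
  fun i j => x i (e j).1 * star (x i (e j).2)

theorem indep_iff (e : ι ≃ Fin d × Fin d) (x : ι → Fin d → ℂ) :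
    LinearIndependent ℂ (fun i => rk (x i)) ↔ (MM e x).det ≠ 0 := by
  let L : Matrix (Fin d) (Fin d) ℂ →ₗ[ℂ] (ι → ℂ) :=
    { toFun := fun A j => A (e j).1 (e j).2
      map_add' := fun A B => rfl
      map_smul' := fun c A => rfl }
  have hL : LinearMap.ker L = ⊥ := by
    rw [LinearMap.ker_eq_bot']
    intro A hA
    ext a b
    have h1 := congrFun hA (e.symm (a, b))
    have h2 : A (e (e.symm (a, b))).1 (e (e.symm (a, b))).2 = 0 := h1
    rw [Equiv.apply_symm_apply] at h2
    exact h2
  rw [← LinearMap.linearIndependent_iff L hL]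
  have h1 : (L ∘ fun i => rk (x i)) = (MM e x).row := rfl
  rw [h1, Matrix.linearIndependent_rows_iff_isUnit, Matrix.isUnit_iff_isUnit_det,
    isUnit_iff_ne_zero]

theorem exists_perturb (hι : Fintype.card ι = d ^ 2) (x : ι → Fin d → ℂ) :
    ∃ w : ι → Fin d → ℂ, ∀ δ : ℝ, 0 < δ → ∃ t : ℝ, 0 < t ∧ t < δ ∧
      LinearIndependent ℂ (fun i => rk (x i + (t : ℂ) • (w i - x i))) := by
  obtain ⟨w, hw⟩ := exists_basis_rk (d := d) hι
  have hcard : Fintype.card ι = Fintype.card (Fin d × Fin d) := by
    rw [hι, Fintype.card_prod, Fintype.card_fin]; ring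
  let e := Fintype.equivOfCardEq hcard
  refine ⟨w, fun δ hδ => ?_⟩
  rw [indep_iff e] at hw
  let Q : Matrix ι ι ℂ[X] := fun i j =>
    (C (x i (e j).1) + X * C (w i (e j).1 - x i (e j).1)) *
      (C (star (x i (e j).2)) + X * C (star (w i (e j).2 - x i (e j).2)))
  have hQ : ∀ t : ℝ, (Q.det).eval (t : ℂ) =
      (MM e (fun i => x i + (t : ℂ) • (w i - x i))).det := by
    intro t
    have h1 : (Q.det).eval (t : ℂ) = ((Polynomial.evalRingHom (t : ℂ)).mapMatrix Q).det := by
      rw [← RingHom.map_det]; rfl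
    rw [h1]
    congr 1
    ext i j
    have h2 : (Polynomial.evalRingHom (t : ℂ)).mapMatrix Q i j = (Q i j).eval (t : ℂ) := rfl
    rw [h2]
    simp only [Q, MM,
      Polynomial.eval_mul, Polynomial.eval_add, Polynomial.eval_C, Polynomial.eval_X,
      Pi.add_apply, Pi.smul_apply, Pi.sub_apply, smul_eq_mul, star_add, star_mul',
      RCLike.star_def, Complex.conj_ofReal]
  have hQ0 : Q.det ≠ 0 := by
    intro h0
    have h1 := hQ 1
    rw [h0, Polynomial.eval_zero] at h1
    apply hw
    have h2 : (fun i => x i + ((1 : ℝ) : ℂ) • (w i - x i)) = w := by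
      funext i
      simp
    rw [h2] at h1
    exact h1.symm
  have hinf : (Set.Ioo (0 : ℝ) δ).Infinite := Set.Ioo_infinite hδ
  have hinf2 : ((fun t : ℝ => (t : ℂ)) '' Set.Ioo (0 : ℝ) δ).Infinite :=
    hinf.image (fun a _ b _ h => by exact_mod_cast h)
  obtain ⟨z, ⟨t, ht, rfl⟩, hz⟩ := hinf2.exists_notMem_finset (Q.det).roots.toFinset
  refine ⟨t, ht.1, ht.2, ?_⟩
  rw [indep_iff e, ← hQ]
  intro h
  apply hz
  rw [Multiset.mem_toFinset, Polynomial.mem_roots hQ0]
  exact h

end det

end Pool.Agent.Lib.MP_d0f9e0_co.Approx
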