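import Pool.Agent.Lib.MP_d0f9e0_co.Approx.Contract

/-!
# From nearly tight unit frames to tight unit frames
-/

set_option autoImplicit false

open Finset
open scoped InnerProductSpace

namespace Pool.Agent.Lib.MP_d0f9e0_co.Approx

set_option linter.unusedSectionVars false

variable {E : Type*} [NormedAddCommGroup E] [InnerProductSpace ℂ E] [FiniteDimensional ℂ E]

theorem op_overlap {P : E →L[ℂ] E} {ρ : ℝ} (hρ1 : ρ ≤ 1) (hP : ‖P - 1‖ ≤ ρ) {x y : E}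
    (hx : ‖x‖ = 1) (hy : ‖y‖ = 1) :
    |‖⟪P x, P y⟫_ℂ‖ - ‖⟪x, y⟫_ℂ‖| ≤ 3 * ρ ∧ |‖P x‖ - 1| ≤ ρ := by
  have h1 : ∀ z : E, ‖z‖ = 1 → ‖P z - z‖ ≤ ρ := by
    intro z hz
    have h2 := (P - 1).le_opNorm z
    rw [hz, mul_one] at h2
    exact h2.trans hP
  have h0 : 0 ≤ ρ := (norm_nonneg _).trans hP
  have h2 : |‖P x‖ - 1| ≤ ρ := by
    rw [← hx]
    exact (abs_norm_sub_norm_le _ _).trans (h1 x hx)
  have h2y : ‖P y‖ ≤ 2 := by
    have : |‖P y‖ - ‖y‖| ≤ ρ := (abs_norm_sub_norm_le _ _).trans (h1 y hy)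
    rw [hy] at this
    have := (abs_le.1 this).2
    linarith
  refine ⟨?_, h2⟩
  refine (abs_norm_sub_norm_le _ _).trans ?_
  have h3 : ⟪P x, P y⟫_ℂ - ⟪x, y⟫_ℂ = ⟪P x - x, P y⟫_ℂ + ⟪x, P y - y⟫_ℂ := by
    rw [inner_sub_left, inner_sub_right]; ring
  rw [h3]
  refine (norm_add_le _ _).trans ?_
  have h4 : ‖⟪P x - x, P y⟫_ℂ‖ ≤ ρ * 2 :=
    (norm_inner_le_norm _ _).trans (mul_le_mul (h1 x hx) h2y (norm_nonneg _) h0)
  have h5 : ‖⟪x, P y - y⟫_ℂ‖ ≤ 1 * ρ :=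
    (norm_inner_le_norm _ _).trans (mul_le_mul hx.le (h1 y hy) (norm_nonneg _) (by norm_num))
  linarith

theorem ratio_bound {R o o' n1 n2 ρ ε0 : ℝ} (hR : 1 ≤ R) (hρ0 : 0 ≤ ρ) (hε : 0 ≤ ε0)
    (hs : ε0 + 8 * (ρ * R) ≤ 1 / 20) (ho : |R * o - 1| ≤ ε0) (ho' : |o' - o| ≤ 3 * ρ)
    (h1 : |n1 - 1| ≤ ρ) (h2 : |n2 - 1| ≤ ρ) :
    |R * (o' / (n1 * n2)) - 1| ≤ ε0 + 8 * (ρ * R) := by
  set σ := ρ * R with hσ
  have hρσ : ρ ≤ σ := by rw [hσ]; nlinarith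
  have hRo : |R * o' - R * o| ≤ 3 * σ := by
    rw [← mul_sub, abs_mul, abs_of_pos (by linarith : (0 : ℝ) < R), hσ]
    nlinarith
  rw [abs_le] at ho h1 h2 hRo
  have hn1 : 0 < n1 := by linarith [h1.1]
  have hn2 : 0 < n2 := by linarith [h2.1]
  have hn : 0 < n1 * n2 := mul_pos hn1 hn2
  have e : R * (o' / (n1 * n2)) = R * o' / (n1 * n2) := by ring
  rw [e, abs_le]
  constructor
  · have h3 : 1 - (ε0 + 8 * σ) ≤ R * o' / (n1 * n2) := by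
      rw [le_div_iff₀ hn]
      have h4 : n1 * n2 ≤ 1 + 3 * σ := by
        have : n1 * n2 ≤ (1 + ρ) * (1 + ρ) := by
          apply mul_le_mul <;> linarith
        nlinarith
      have h5 : (1 - (ε0 + 8 * σ)) * (n1 * n2) ≤ (1 - (ε0 + 8 * σ)) * (1 + 3 * σ) :=
        mul_le_mul_of_nonneg_left h4 (by linarith)
      nlinarith
    linarith
  · have h3 : R * o' / (n1 * n2) ≤ 1 + (ε0 + 8 * σ) := by
      rw [div_le_iff₀ hn]
      have h4 : 1 - 2 * ρ ≤ n1 * n2 := by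
        have : (1 - ρ) * (1 - ρ) ≤ n1 * n2 := by
          apply mul_le_mul <;> linarith
        nlinarith
      have h5 : (1 + (ε0 + 8 * σ)) * (1 - 2 * ρ) ≤ (1 + (ε0 + 8 * σ)) * (n1 * n2) :=
        mul_le_mul_of_nonneg_left h4 (by linarith)
      nlinarith
    linarith

theorem exists_exact {ι : Type*} [Fintype ι] [DecidableEq ι] (x : ι → E) {D γ ε0 : ℝ}
    (hD : 16 ≤ D) (hfin : (Module.finrank ℂ E : ℝ) = D) (hcard : (Fintype.card ι : ℝ) = D ^ 2)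
    (hγ0 : 0 ≤ γ) (hx : ∀ i, ‖x i‖ = 1) (hε0 : 0 ≤ ε0)
    (hnear : ∀ v : E, |∑ i, ‖⟪x i, v⟫_ℂ‖ ^ 2 - D * ‖v‖ ^ 2| ≤ D * γ * ‖v‖ ^ 2)
    (hov : ∀ i j, i ≠ j → |Real.sqrt D * ‖⟪x i, x j⟫_ℂ‖ - 1| ≤ ε0)
    (hs : ε0 + 300 * (γ * Real.sqrt D) ≤ 1 / 20) :
    ∃ (a : ι → ℝ) (P : E →L[ℂ] E), ‖P - 1‖ ≤ 33 * γ ∧
      (∀ i, ‖(a i : ℂ) • P (x i)‖ = 1) ∧
      (∀ v : E, ∑ i, ‖⟪(a i : ℂ) • P (x i), v⟫_ℂ‖ ^ 2 = D * ‖v‖ ^ 2) ∧
      ∀ i j, i ≠ j → |Real.sqrt D * ‖⟪(a i : ℂ) • P (x i), (a j : ℂ) • P (x j)⟫_ℂ‖ - 1| ≤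
        ε0 + 300 * (γ * Real.sqrt D) := by
  have hR1 : 1 ≤ Real.sqrt D := by
    rw [Real.one_le_sqrt]; linarith
  have hRpos : 0 < Real.sqrt D := by linarith
  have hγR : γ ≤ γ * Real.sqrt D := le_mul_of_one_le_right hγ0 hR1
  have hγ1 : 6000 * γ ≤ 1 := by linarith
  have hRsq : Real.sqrt D ^ 2 = D := Real.sq_sqrt (by linarith)
  have hD0 : 0 < D := by linarith
  -- overlaps for small perturbations
  have hovP : ∀ (a : ι → ℝ) (P : E →L[ℂ] E), ‖P - 1‖ ≤ 33 * γ → (∀ i, a i ≠ 0) →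
      ∀ i j, i ≠ j → |Real.sqrt D * (‖⟪(a i : ℂ) • P (x i), (a j : ℂ) • P (x j)⟫_ℂ‖ /
        (‖(a i : ℂ) • P (x i)‖ * ‖(a j : ℂ) • P (x j)‖)) - 1| ≤
        ε0 + 300 * (γ * Real.sqrt D) := by
    intro a P hP ha i j hij
    have h1 := op_overlap (by linarith) hP (hx i) (hx j)
    have h2 := op_overlap (by linarith) hP (hx j) (hx i)
    have h3 : ‖⟪(a i : ℂ) • P (x i), (a j : ℂ) • P (x j)⟫_ℂ‖ /
        (‖(a i : ℂ) • P (x i)‖ * ‖(a j : ℂ) • P (x j)‖) =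
        ‖⟪P (x i), P (x j)⟫_ℂ‖ / (‖P (x i)‖ * ‖P (x j)‖) := by
      rw [inner_smul_left, inner_smul_right, norm_mul, norm_mul, RCLike.norm_conj, norm_smul,
        norm_smul, Complex.norm_real, Complex.norm_real]
      have h4 : ‖a i‖ ≠ 0 := norm_ne_zero_iff.2 (ha i)
      have h5 : ‖a j‖ ≠ 0 := norm_ne_zero_iff.2 (ha j)
      rw [show ‖a i‖ * (‖a j‖ * ‖⟪P (x i), P (x j)⟫_ℂ‖) =
        (‖a i‖ * ‖a j‖) * ‖⟪P (x i), P (x j)⟫_ℂ‖ by ring,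
        show ‖a i‖ * ‖P (x i)‖ * (‖a j‖ * ‖P (x j)‖) =
        (‖a i‖ * ‖a j‖) * (‖P (x i)‖ * ‖P (x j)‖) by ring,
        mul_div_mul_left _ _ (mul_ne_zero h4 h5)]
    rw [h3]
    have h6 := ratio_bound (R := Real.sqrt D) (ρ := 33 * γ) (ε0 := ε0) hR1 (by linarith) hε0
      (by nlinarith [mul_nonneg hγ0 hRpos.le]) (hov i j hij) h1.1 h1.2 h2.2
    refine h6.trans ?_
    nlinarith [mul_nonneg hγ0 hRpos.le]
  -- the functional
  let Y : (ι → ℝ) × (E →L[ℂ] E) → ι → E := fun p i => (p.1 i : ℂ) • p.2 (x i)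
  let F : (ι → ℝ) × (E →L[ℂ] E) → ℝ := fun p =>
    16 * ‖(fun i => ‖Y p i‖ ^ 2 - 1 : ι → ℝ)‖ + ‖p.2 - 1‖
  let S : Set ((ι → ℝ) × (E →L[ℂ] E)) :=
    (Set.univ.pi (fun _ : ι => Set.Icc (0 : ℝ) 4)) ×ˢ (Metric.closedBall (1 : E →L[ℂ] E) (1 / 2))
      ∩ {p | ∀ v : E, ∑ i, ‖⟪Y p i, v⟫_ℂ‖ ^ 2 = D * ‖v‖ ^ 2}
  have hYc : ∀ i, Continuous fun p => Y p i := by
    intro i
    simp only [Y]
    fun_prop
  have hFc : Continuous F := by
    simp only [F]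
    refine (continuous_const.mul (Continuous.norm (continuous_pi fun i => ?_))).add ?_
    · exact (((hYc i).norm).pow 2).sub continuous_const
    · fun_prop
  have : ProperSpace (E →L[ℂ] E) := FiniteDimensional.proper ℂ _
  have hScomp : IsCompact S := by
    apply IsCompact.inter_right
    · exact (isCompact_univ_pi fun _ => isCompact_Icc).prod (isCompact_closedBall _ _)
    · rw [Set.setOf_forall]
      apply isClosed_iInter
      intro v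
      apply isClosed_eq _ continuous_const
      apply continuous_finset_sum
      intro i _
      exact ((hYc i).inner continuous_const).norm.pow 2
  have hΔi : ∀ (p : (ι → ℝ) × (E →L[ℂ] E)) i,
      |‖Y p i‖ ^ 2 - 1| ≤ ‖(fun i => ‖Y p i‖ ^ 2 - 1 : ι → ℝ)‖ := by
    intro p i
    rw [← Real.norm_eq_abs]
    exact norm_le_pi_norm (fun i => ‖Y p i‖ ^ 2 - 1 : ι → ℝ) i
  -- the starting point
  obtain ⟨B0, hB1, hB2, hB3⟩ := exists_scale x hD0 hγ0 (by linarith) hnear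
  have hstart : ((fun _ => 1, B0) : (ι → ℝ) × (E →L[ℂ] E)) ∈ S := by
    refine ⟨⟨fun i _ => ⟨by norm_num, by norm_num⟩, ?_⟩, ?_⟩
    · rw [Metric.mem_closedBall, dist_eq_norm]
      linarith
    · intro v
      simp only [Y, Complex.ofReal_one, one_smul]
      exact hB2 v
  have hFstart : F (fun _ => 1, B0) ≤ 33 * γ := by
    simp only [F]
    have h1 : ‖(fun i => ‖Y (fun _ => 1, B0) i‖ ^ 2 - 1 : ι → ℝ)‖ ≤ 2 * γ := by
      rw [pi_norm_le_iff_of_nonneg (by linarith)]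
      intro i
      simp only [Y, Complex.ofReal_one, one_smul, Real.norm_eq_abs]
      have h2 := hB3 (x i)
      have h3 := hnear (x i)
      rw [hx, one_pow] at h2 h3
      have h4 : |1 / D * ∑ j, ‖⟪x j, x i⟫_ℂ‖ ^ 2 - 1| ≤ γ := by
        have h5 : 1 / D * ∑ j, ‖⟪x j, x i⟫_ℂ‖ ^ 2 - 1 =
            (∑ j, ‖⟪x j, x i⟫_ℂ‖ ^ 2 - D * 1) / D := by field_simp
        rw [h5, abs_div, abs_of_pos hD0, div_le_iff₀ hD0]
        linarith
      have h5 : 2 * γ ^ 2 * 1 ≤ γ := by nlinarith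
      rw [abs_le] at h2 h4 ⊢
      constructor <;> linarith [h2.1, h2.2, h4.1, h4.2]
    linarith
  obtain ⟨p, hpS, hpmin⟩ := hScomp.exists_isMinOn ⟨_, hstart⟩ hFc.continuousOn
  have hFp : F p ≤ 33 * γ := (hpmin hstart).trans hFstart
  set Δ := ‖(fun i => ‖Y p i‖ ^ 2 - 1 : ι → ℝ)‖ with hΔ
  have hΔ0 : 0 ≤ Δ := norm_nonneg _
  have hFp' : F p = 16 * Δ + ‖p.2 - 1‖ := rfl
  have hP : ‖p.2 - 1‖ ≤ 33 * γ := by linarith
  have hΔγ : Δ ≤ 3 * γ := by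
    have := norm_nonneg (p.2 - 1)
    linarith
  obtain ⟨⟨hp1, hp2⟩, hp3⟩ := hpS
  have hYn : ∀ i, 0 < ‖Y p i‖ := by
    intro i
    have h1 := (abs_le.1 (hΔi p i)).1
    by_contra hc
    have h2 : ‖Y p i‖ = 0 := le_antisymm (not_lt.1 hc) (norm_nonneg _)
    rw [h2] at h1
    norm_num at h1
    linarith
  have ha0 : ∀ i, p.1 i ≠ 0 := by
    intro i h
    have := hYn i
    simp only [Y, h, Complex.ofReal_zero, zero_smul, norm_zero, lt_irrefl] at this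
  have hΔz : Δ = 0 := by
    by_contra hne
    have hΔpos : 0 < Δ := lt_of_le_of_ne hΔ0 (Ne.symm hne)
    obtain ⟨B, hBn, hBt, hBd⟩ := contract (Y p) (D := D) (Δ := Δ) hD hfin hcard hΔ0
      (by linarith) hp3 (hΔi p) (by
        intro i j hij
        have h1 := hovP p.1 p.2 hP ha0 i j hij
        set o := ‖⟪Y p i, Y p j⟫_ℂ‖ / (‖Y p i‖ * ‖Y p j‖) with ho
        change |Real.sqrt D * o - 1| ≤ _ at h1
        have h2 : ‖⟪Y p i, Y p j⟫_ℂ‖ ^ 2 / (‖Y p i‖ ^ 2 * ‖Y p j‖ ^ 2) - 1 / D =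
            ((Real.sqrt D * o) ^ 2 - 1) / D := by
          rw [ho, mul_pow, div_pow, mul_pow, hRsq]
          field_simp
        rw [h2, abs_div, abs_of_pos hD0]
        apply div_le_div_of_nonneg_right _ hD0.le
        have h3 := h1.trans hs
        rw [abs_le] at h3 ⊢
        constructor <;> nlinarith [h3.1, h3.2])
    -- the new point
    let p' : (ι → ℝ) × (E →L[ℂ] E) := (fun i => ‖Y p i‖⁻¹ * p.1 i, B * p.2)
    have hY' : ∀ i, Y p' i = B (((‖Y p i‖⁻¹ : ℝ) : ℂ) • Y p i) := by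
      intro i
      have h1 : Y p' i = ((‖Y p i‖⁻¹ * p.1 i : ℝ) : ℂ) • B (p.2 (x i)) := rfl
      have h2 : Y p i = (p.1 i : ℂ) • p.2 (x i) := rfl
      rw [h1, Complex.ofReal_mul, mul_smul, ← map_smul, ← map_smul, ← h2]
    have hPn : ‖p.2‖ ≤ 3 / 2 := by
      have h1 : ‖p.2‖ ≤ ‖p.2 - 1‖ + ‖(1 : E →L[ℂ] E)‖ := by
        have := norm_add_le (p.2 - 1) 1
        rwa [sub_add_cancel] at this
      have h2 : ‖(1 : E →L[ℂ] E)‖ ≤ 1 := ContinuousLinearMap.norm_id_le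
      linarith
    have hP' : ‖p'.2 - 1‖ ≤ 3 * Δ + ‖p.2 - 1‖ := by
      have h1 : p'.2 - 1 = (B - 1) * p.2 + (p.2 - 1) := by
        simp only [p']
        noncomm_ring
      rw [h1]
      refine (norm_add_le _ _).trans ?_
      have h2 : ‖(B - 1) * p.2‖ ≤ ‖B - 1‖ * ‖p.2‖ := norm_mul_le _ _
      have h3 : ‖B - 1‖ * ‖p.2‖ ≤ (2 * Δ) * (3 / 2) :=
        mul_le_mul hBn hPn (norm_nonneg _) (by linarith)
      linarith
    have hd' : ∀ i, |‖Y p' i‖ ^ 2 - 1| ≤ Δ / 2 := by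
      intro i
      rw [hY']
      exact hBd i
    have hp'S : p' ∈ S := by
      refine ⟨⟨?_, ?_⟩, ?_⟩
      · intro i _
        have h1 : 0 ≤ p'.1 i := mul_nonneg (inv_nonneg.2 (norm_nonneg _)) (hp1 i trivial).1
        refine ⟨h1, ?_⟩
        have h2 : ‖Y p' i‖ = p'.1 i * ‖p'.2 (x i)‖ := by
          simp only [Y]
          rw [norm_smul, Complex.norm_real, Real.norm_of_nonneg h1]
        have h3 : ‖Y p' i‖ ≤ 2 := by
          have h4 := (abs_le.1 (hd' i)).2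
          by_contra hc
          push Not at hc
          nlinarith
        have h4 : 1 / 2 ≤ ‖p'.2 (x i)‖ := by
          have h5 := (op_overlap (ρ := 1 / 2) (by norm_num)
            (by linarith : ‖p'.2 - 1‖ ≤ 1 / 2) (hx i) (hx i)).2
          have := (abs_le.1 h5).1
          linarith
        nlinarith
      · rw [Metric.mem_closedBall, dist_eq_norm]
        linarith
      · intro v
        simp only [hY']
        exact hBt v
    have h1 := hpmin hp'S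
    have h2 : F p' ≤ 16 * (Δ / 2) + (3 * Δ + ‖p.2 - 1‖) := by
      simp only [F]
      have h3 : ‖(fun i => ‖Y p' i‖ ^ 2 - 1 : ι → ℝ)‖ ≤ Δ / 2 := by
        rw [pi_norm_le_iff_of_nonneg (by linarith)]
        intro i
        exact hd' i
      linarith
    have h3 : F p ≤ F p' := h1
    linarith
  have hYone : ∀ i, ‖Y p i‖ = 1 := by
    intro i
    have h1 := hΔi p i
    rw [← hΔ, hΔz, abs_nonpos_iff] at h1
    have h2 : ‖Y p i‖ ^ 2 = 1 := by linarith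
    have h3 := hYn i
    nlinarith
  refine ⟨p.1, p.2, hP, hYone, hp3, fun i j hij => ?_⟩
  have h1 := hovP p.1 p.2 hP ha0 i j hij
  have h2 : ‖(p.1 i : ℂ) • p.2 (x i)‖ * ‖(p.1 j : ℂ) • p.2 (x j)‖ = 1 := by
    have e1 : ‖(p.1 i : ℂ) • p.2 (x i)‖ = 1 := hYone i
    have e2 : ‖(p.1 j : ℂ) • p.2 (x j)‖ = 1 := hYone j
    rw [e1, e2, mul_one]
  rwa [h2, div_one] at h1

end Pool.Agent.Lib.MP_d0f9e0_co.Approx
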