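import Pool.Agent.Lib.MP_d0f9e0_co.Approx.Frame
import Pool.Agent.Lib.MP_d0f9e0_co.Approx.Minimize
import Pool.Agent.Lib.MP_d0f9e0_co.Approx.Generic

/-!
# Nearly equiangular tight frames of `d ^ 2` unit vectors whose projections are independent
-/

set_option autoImplicit false

open Finset Matrix
open scoped InnerProductSpace

namespace Pool.Agent.Lib.MP_d0f9e0_co.Approx

variable {d : ℕ}

theorem sesq_rk (y v w : EuclideanSpace ℂ (Fin d)) :
    star v.ofLp ⬝ᵥ (rk y.ofLp *ᵥ w.ofLp) = ⟪v, y⟫_ℂ * ⟪y, w⟫_ℂ := by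
  rw [rk_mulVec, dotProduct_smul, smul_eq_mul, EuclideanSpace.inner_eq_star_dotProduct,
    EuclideanSpace.inner_eq_star_dotProduct, dotProduct_comm w.ofLp, dotProduct_comm y.ofLp]
  ring

theorem sesq_sum {ι : Type*} [Fintype ι] (c : ι → ℂ) (y : ι → EuclideanSpace ℂ (Fin d))
    (v w : EuclideanSpace ℂ (Fin d)) :
    star v.ofLp ⬝ᵥ ((∑ i, c i • rk (y i).ofLp) *ᵥ w.ofLp) = ∑ i, c i * (⟪v, y i⟫_ℂ * ⟪y i, w⟫_ℂ) := by
  rw [Matrix.sum_mulVec, dotProduct_sum]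
  apply Finset.sum_congr rfl
  intro i _
  rw [Matrix.smul_mulVec, dotProduct_smul, sesq_rk, smul_eq_mul]

theorem eq_zero_of_sesq {A : Matrix (Fin d) (Fin d) ℂ}
    (h : ∀ v w : EuclideanSpace ℂ (Fin d), star v.ofLp ⬝ᵥ (A *ᵥ w.ofLp) = 0) : A = 0 := by
  ext k l
  have h1 := h (WithLp.toLp 2 (Pi.single k 1)) (WithLp.toLp 2 (Pi.single l 1))
  simpa [dotProduct, Pi.single_apply, Finset.sum_ite_eq] using h1

theorem indep_of_op {ι : Type*} [Fintype ι] {x : ι → EuclideanSpace ℂ (Fin d)}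
    (hx : LinearIndependent ℂ (fun i => rk (x i).ofLp))
    {P : EuclideanSpace ℂ (Fin d) →L[ℂ] EuclideanSpace ℂ (Fin d)} (hP : ‖P - 1‖ < 1)
    {a : ι → ℝ} (ha : ∀ i, a i ≠ 0) :
    LinearIndependent ℂ (fun i => rk ((a i : ℂ) • P (x i)).ofLp) := by
  rw [Fintype.linearIndependent_iff] at hx ⊢
  intro c hc
  -- the adjoint is surjective
  set Q := ContinuousLinearMap.adjoint P with hQ
  have hQ1 : ‖Q - 1‖ < 1 := by
    have : Q - 1 = ContinuousLinearMap.adjoint (P - 1) := by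
      rw [hQ, map_sub]
      congr 1
      symm
      exact ContinuousLinearMap.ext fun v => ext_inner_left ℂ fun w => by
        rw [ContinuousLinearMap.adjoint_inner_right]; rfl
    rw [this, LinearIsometryEquiv.norm_map]
    exact hP
  have hinj : Function.Injective (Q : EuclideanSpace ℂ (Fin d) →ₗ[ℂ] EuclideanSpace ℂ (Fin d)) := by
    rw [injective_iff_map_eq_zero]
    intro v hv
    have hv' : Q v = 0 := hv
    by_contra hne
    have h1 : ‖(Q - 1) v‖ ≤ ‖Q - 1‖ * ‖v‖ := (Q - 1).le_opNorm v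
    have h2 : (Q - 1) v = -v := by
      have : (Q - 1) v = Q v - v := rfl
      rw [this, hv', zero_sub]
    rw [h2, norm_neg] at h1
    have h3 : 0 < ‖v‖ := norm_pos_iff.2 hne
    nlinarith
  have hsurj : Function.Surjective Q := LinearMap.injective_iff_surjective.1 hinj
  have h0 : ∑ i, (c i * (a i : ℂ) ^ 2) • rk (x i).ofLp = 0 := by
    apply eq_zero_of_sesq
    intro v w
    obtain ⟨v', rfl⟩ := hsurj v
    obtain ⟨w', rfl⟩ := hsurj w
    rw [sesq_sum]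
    have h1 := sesq_sum c (fun i => (a i : ℂ) • P (x i)) v' w'
    rw [hc, Matrix.zero_mulVec, dotProduct_zero] at h1
    rw [h1]
    apply Finset.sum_congr rfl
    intro i _
    rw [hQ, ContinuousLinearMap.adjoint_inner_left, ContinuousLinearMap.adjoint_inner_right,
      inner_smul_right, inner_smul_left, Complex.conj_ofReal]
    ring
  intro i
  have h1 := hx _ h0 i
  have h2 : ((a i : ℂ)) ^ 2 ≠ 0 := pow_ne_zero _ (by exact_mod_cast ha i)
  exact (mul_eq_zero.1 h1).resolve_right h2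

theorem perturb {ι : Type*} [Fintype ι] [DecidableEq ι] (hι : Fintype.card ι = d ^ 2)
    (x : ι → EuclideanSpace ℂ (Fin d)) (hx : ∀ i, ‖x i‖ = 1) {s : ℝ} (hs : 0 < s) :
    ∃ x' : ι → EuclideanSpace ℂ (Fin d), (∀ i, ‖x' i‖ = 1) ∧ (∀ i, ‖x' i - x i‖ ≤ s) ∧
      LinearIndependent ℂ (fun i => rk (x' i).ofLp) := by
  obtain ⟨w, hw⟩ := exists_perturb hι (fun i => (x i).ofLp)
  set W : ι → EuclideanSpace ℂ (Fin d) := fun i => WithLp.toLp 2 (w i) with hW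
  set K := ∑ i, ‖W i - x i‖ + 1 with hK
  have hK0 : 0 < K := by positivity
  have hKi : ∀ i, ‖W i - x i‖ ≤ K := fun i => by
    have := Finset.single_le_sum (f := fun i => ‖W i - x i‖) (fun j _ => norm_nonneg _)
      (Finset.mem_univ i)
    linarith
  obtain ⟨t, ht0, ht1, ht2⟩ := hw (min (1 / 2) (s / 2) / K) (by positivity)
  rw [lt_div_iff₀ hK0] at ht1
  set u : ι → EuclideanSpace ℂ (Fin d) := fun i => x i + (t : ℂ) • (W i - x i) with hu
  have hux : ∀ i, ‖u i - x i‖ ≤ min (1 / 2) (s / 2) := by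
    intro i
    have : u i - x i = (t : ℂ) • (W i - x i) := by rw [hu]; simp
    rw [this, norm_smul, Complex.norm_real, Real.norm_of_nonneg ht0.le]
    calc t * ‖W i - x i‖ ≤ t * K := by gcongr; exact hKi i
      _ ≤ _ := ht1.le
  have hun : ∀ i, |‖u i‖ - 1| ≤ min (1 / 2) (s / 2) := by
    intro i
    have h := abs_norm_sub_norm_le (u i) (x i)
    rw [hx i] at h
    exact h.trans (hux i)
  have hu0 : ∀ i, 0 < ‖u i‖ := by
    intro i
    have := (abs_le.1 ((hun i).trans (min_le_left _ _))).1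
    linarith
  refine ⟨fun i => ((‖u i‖⁻¹ : ℝ) : ℂ) • u i, ?_, ?_, ?_⟩
  · intro i
    simp only
    rw [norm_smul, Complex.norm_real, norm_inv, norm_norm, inv_mul_cancel₀ (hu0 i).ne']
  · intro i
    simp only
    have h1 : ((‖u i‖⁻¹ : ℝ) : ℂ) • u i - x i = (((‖u i‖⁻¹ - 1 : ℝ)) : ℂ) • u i +
        (u i - x i) := by
      push_cast
      rw [sub_smul, one_smul]
      abel
    rw [h1]
    refine (norm_add_le _ _).trans ?_
    have h2 : ‖(((‖u i‖⁻¹ - 1 : ℝ)) : ℂ) • u i‖ = |‖u i‖ - 1| := by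
      rw [norm_smul, Complex.norm_real, Real.norm_eq_abs]
      have : ‖u i‖⁻¹ - 1 = -(‖u i‖ - 1) / ‖u i‖ := by
        field_simp [(hu0 i).ne']
        ring
      rw [this, abs_div, abs_neg, abs_of_pos (hu0 i), div_mul_cancel₀ _ (hu0 i).ne']
    rw [h2]
    have h3 := (hun i).trans (min_le_right _ _)
    have h4 := (hux i).trans (min_le_right _ _)
    linarith
  · have h1 : ∀ i, rk (((‖u i‖⁻¹ : ℝ) : ℂ) • u i).ofLp =
        (((‖u i‖⁻¹) ^ 2 : ℝ) : ℂ) • rk (u i).ofLp := by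
      intro i
      ext a b
      simp only [rk, vecMulVec_apply, Matrix.smul_apply, Pi.star_apply, PiLp.smul_apply,
        smul_eq_mul, star_mul', RCLike.star_def, Complex.conj_ofReal]
      push_cast
      ring
    simp only [h1]
    have hne : ∀ i, (((‖u i‖⁻¹) ^ 2 : ℝ) : ℂ) ≠ 0 := fun i => by
      have : (‖u i‖⁻¹) ^ 2 ≠ 0 := pow_ne_zero _ (inv_ne_zero (hu0 i).ne')
      exact_mod_cast this
    have h2 : LinearIndependent ℂ (fun i => rk (u i).ofLp) := ht2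
    have h3 := h2.units_smul (fun i => Units.mk0 _ (hne i))
    exact h3

theorem exists_final {ε : ℝ} (hε : 0 < ε) : ∃ d0 : ℕ, ∀ d : ℕ, d0 ≤ d →
    ∃ x : Fin (d ^ 2) → EuclideanSpace ℂ (Fin d), (∀ i, ‖x i‖ = 1) ∧
      (∀ v, ∑ i, ‖⟪x i, v⟫_ℂ‖ ^ 2 = d * ‖v‖ ^ 2) ∧
      LinearIndependent ℂ (fun i => rk (x i).ofLp) ∧
      ∀ i j, i ≠ j → (1 - ε) / Real.sqrt (d + 1) ≤ ‖⟪x i, x j⟫_ℂ‖ ∧
        ‖⟪x i, x j⟫_ℂ‖ ≤ (1 + ε) / Real.sqrt (d + 1) := by
  -- reduction to small `ε`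
  wlog hε1 : ε ≤ 1 generalizing ε
  · obtain ⟨d0, hd0⟩ := this one_pos le_rfl
    refine ⟨d0, fun d hd => ?_⟩
    obtain ⟨x, h1, h2, h3, h4⟩ := hd0 d hd
    refine ⟨x, h1, h2, h3, fun i j hij => ⟨?_, ?_⟩⟩
    · refine le_trans ?_ (h4 i j hij).1
      push Not at hε1
      gcongr
    · refine (h4 i j hij).2.trans ?_
      push Not at hε1
      gcongr
  set η := ε / 200 with hη
  set ϖ := ε / 3132000 with hϖ
  obtain ⟨d1, hd1⟩ := exists_near (η := η) (ϖ := ϖ) (by positivity) (by rw [hη]; linarith)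
    (by positivity) (by rw [hη, hϖ]; nlinarith [sq_nonneg ε])
  refine ⟨max (max d1 16) ⌈10 / ε⌉₊, fun d hd => ?_⟩
  have hdd1 : d1 ≤ d := le_trans (le_trans (le_max_left _ _) (le_max_left _ _)) hd
  have hd16 : (16 : ℝ) ≤ d := by
    exact_mod_cast le_trans (le_trans (le_max_right _ _) (le_max_left _ _)) hd
  have hdε : 10 / ε ≤ d := (Nat.le_ceil _).trans (by exact_mod_cast (le_max_right _ _).trans hd)
  obtain ⟨x, hx1, hx2, hx3⟩ := hd1 d hdd1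
  have hd0 : (0 : ℝ) < d := by linarith
  set R := Real.sqrt d with hR
  have hR0 : 0 < R := Real.sqrt_pos.2 hd0
  have hRsq : R * R = d := Real.mul_self_sqrt hd0.le
  set s := min (ϖ * R / (2 * d ^ 2)) (η / (2 * R)) with hs
  have hs0 : 0 < s := by positivity
  have hcard : Fintype.card (Fin (d ^ 2)) = d ^ 2 := Fintype.card_fin _
  obtain ⟨x', hx'1, hx'2, hx'3⟩ := perturb hcard x hx1 hs0
  -- near tightness of the perturbed vectors
  have hnear : ∀ v, |∑ i, ‖⟪x' i, v⟫_ℂ‖ ^ 2 - d * ‖v‖ ^ 2| ≤ d * (261 * ϖ / R) * ‖v‖ ^ 2 := by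
    intro v
    have h1 : |∑ i, ‖⟪x' i, v⟫_ℂ‖ ^ 2 - ∑ i, ‖⟪x i, v⟫_ℂ‖ ^ 2| ≤ ϖ * R * ‖v‖ ^ 2 := by
      rw [← Finset.sum_sub_distrib]
      refine (Finset.abs_sum_le_sum_abs _ _).trans ?_
      have h2 : ∀ i ∈ Finset.univ, |‖⟪x' i, v⟫_ℂ‖ ^ 2 - ‖⟪x i, v⟫_ℂ‖ ^ 2| ≤
          ϖ * R / d ^ 2 * ‖v‖ ^ 2 := by
        intro i _
        have h3 : ‖⟪x' i, v⟫_ℂ‖ ^ 2 - ‖⟪x i, v⟫_ℂ‖ ^ 2 = (‖⟪x' i, v⟫_ℂ‖ - ‖⟪x i, v⟫_ℂ‖) *
          (‖⟪x' i, v⟫_ℂ‖ + ‖⟪x i, v⟫_ℂ‖) := by ring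
        rw [h3, abs_mul]
        have h4 : |‖⟪x' i, v⟫_ℂ‖ - ‖⟪x i, v⟫_ℂ‖| ≤ ϖ * R / (2 * d ^ 2) * ‖v‖ := by
          refine (abs_norm_sub_norm_le _ _).trans ?_
          rw [← inner_sub_left]
          refine (norm_inner_le_norm _ _).trans ?_
          apply mul_le_mul_of_nonneg_right _ (norm_nonneg _)
          exact (hx'2 i).trans (min_le_left _ _)
        have h5 : |‖⟪x' i, v⟫_ℂ‖ + ‖⟪x i, v⟫_ℂ‖| ≤ 2 * ‖v‖ := by
          rw [abs_of_nonneg (by positivity)]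
          have e1 := norm_inner_le_norm (𝕜 := ℂ) (x' i) v
          have e2 := norm_inner_le_norm (𝕜 := ℂ) (x i) v
          rw [hx'1] at e1
          rw [hx1] at e2
          linarith
        calc _ ≤ (ϖ * R / (2 * d ^ 2) * ‖v‖) * (2 * ‖v‖) := by gcongr
          _ = ϖ * R / d ^ 2 * ‖v‖ ^ 2 := by ring
      refine (Finset.sum_le_card_nsmul _ _ _ h2).trans ?_
      rw [Finset.card_univ, hcard, nsmul_eq_mul]
      push_cast
      apply le_of_eq
      field_simp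
    have h2 := hx2 v
    have h3 : d * (261 * ϖ / R) = 261 * ϖ * R := by
      rw [← hRsq]; field_simp
    rw [h3]
    have h4 : ∑ i, ‖⟪x' i, v⟫_ℂ‖ ^ 2 - d * ‖v‖ ^ 2 =
        (∑ i, ‖⟪x' i, v⟫_ℂ‖ ^ 2 - ∑ i, ‖⟪x i, v⟫_ℂ‖ ^ 2) +
        (∑ i, ‖⟪x i, v⟫_ℂ‖ ^ 2 - d * ‖v‖ ^ 2) := by ring
    rw [h4]
    refine (abs_add_le _ _).trans ?_
    linarith
  have hov : ∀ i j, i ≠ j → |Real.sqrt d * ‖⟪x' i, x' j⟫_ℂ‖ - 1| ≤ 5 * η := by
    intro i j hij
    have h1 := hx3 i j hij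
    rw [← hR]
    have h2 : |‖⟪x' i, x' j⟫_ℂ‖ - ‖⟪x i, x j⟫_ℂ‖| ≤ 2 * (η / (2 * R)) := by
      refine (abs_norm_sub_norm_le _ _).trans ?_
      have h3 : ⟪x' i, x' j⟫_ℂ - ⟪x i, x j⟫_ℂ = ⟪x' i - x i, x' j⟫_ℂ + ⟪x i, x' j - x j⟫_ℂ := by
        rw [inner_sub_left, inner_sub_right]; ring
      rw [h3]
      refine (norm_add_le _ _).trans ?_
      have e1 := norm_inner_le_norm (𝕜 := ℂ) (x' i - x i) (x' j)
      have e2 := norm_inner_le_norm (𝕜 := ℂ) (x i) (x' j - x j)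
      rw [hx'1, mul_one] at e1
      rw [hx1, one_mul] at e2
      have e3 := (hx'2 i).trans (min_le_right _ _)
      have e4 := (hx'2 j).trans (min_le_right _ _)
      linarith
    have h3 : |R * ‖⟪x' i, x' j⟫_ℂ‖ - R * ‖⟪x i, x j⟫_ℂ‖| ≤ η := by
      rw [← mul_sub, abs_mul, abs_of_pos hR0]
      calc R * |‖⟪x' i, x' j⟫_ℂ‖ - ‖⟪x i, x j⟫_ℂ‖| ≤ R * (2 * (η / (2 * R))) := by gcongr
        _ = η := by field_simp
    rw [abs_le] at h1 h3 ⊢
    constructor <;> linarith [h1.1, h1.2, h3.1, h3.2]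
  obtain ⟨a, P, hP, ha1, ha2, ha3⟩ := exists_exact x' (D := (d : ℝ)) (γ := 261 * ϖ / R)
    (ε0 := 5 * η) hd16 (by rw [finrank_euclideanSpace_fin]) (by rw [hcard]; push_cast; rfl)
    (by positivity) hx'1 (by positivity) hnear hov (by
      rw [← hR, div_mul_cancel₀ _ hR0.ne', hη, hϖ]
      linarith)
  have hγ : 33 * (261 * ϖ / R) < 1 := by
    have : 1 ≤ R := by
      rw [hR, Real.one_le_sqrt]; linarith
    have h1 : 261 * ϖ / R ≤ 261 * ϖ := div_le_self (by positivity) this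
    rw [hϖ] at h1
    rw [hϖ]
    linarith
  have ha0 : ∀ i, a i ≠ 0 := by
    intro i h
    have := ha1 i
    rw [h, Complex.ofReal_zero, zero_smul, norm_zero] at this
    exact zero_ne_one this
  refine ⟨fun i => (a i : ℂ) • P (x' i), ha1, ha2, indep_of_op hx'3 (hP.trans_lt hγ) ha0,
    fun i j hij => ?_⟩
  have h1 := ha3 i j hij
  rw [← hR, div_mul_cancel₀ _ hR0.ne'] at h1
  have h2 : 5 * η + 300 * (261 * ϖ) ≤ ε / 20 := by
    rw [hη, hϖ]; linarith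
  have h3 := h1.trans h2
  rw [abs_le] at h3
  set o := ‖⟪(a i : ℂ) • P (x' i), (a j : ℂ) • P (x' j)⟫_ℂ‖
  have hR1 : R ≤ Real.sqrt (d + 1) := Real.sqrt_le_sqrt (by linarith)
  have hR2 : Real.sqrt (d + 1) ≤ R * (1 + ε / 20) := by
    rw [Real.sqrt_le_left (by positivity), mul_pow, sq R, hRsq]
    rw [div_le_iff₀ hε] at hdε
    nlinarith
  have hS0 : 0 < Real.sqrt (d + 1) := hR0.trans_le hR1
  constructor
  · rw [div_le_iff₀ hS0]
    have h4 : (1 - ε / 20) ≤ R * o := by linarith [h3.1]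
    have ho : 0 ≤ o := norm_nonneg _
    have h5 : R * o ≤ o * Real.sqrt (d + 1) := by
      rw [mul_comm]; gcongr
    linarith
  · rw [le_div_iff₀ hS0]
    have h4 : R * o ≤ 1 + ε / 20 := by linarith [h3.2]
    have ho : 0 ≤ o := norm_nonneg _
    calc o * Real.sqrt (d + 1) ≤ o * (R * (1 + ε / 20)) := by gcongr
      _ = (R * o) * (1 + ε / 20) := by ring
      _ ≤ (1 + ε / 20) * (1 + ε / 20) := by gcongr
      _ ≤ 1 + ε := by nlinarith

end Pool.Agent.Lib.MP_d0f9e0_co.Approx
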