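import Pool.Agent.Lib.MP_d0f9e0_co.Approx.Greedy

/-!
# Nearly tight subsets of prescribed size of a tight frame
-/

set_option autoImplicit false

open Matrix Finset

namespace Pool.Agent.Lib.MP_d0f9e0_co.Approx

variable {d : ℕ}

/-- the deviation of a subset of a frame from tightness -/
noncomputable def dev {Ω : Type*} (x : Ω → Fin d → ℂ) (Y : Finset Ω) :
    Matrix (Fin d) (Fin d) ℂ :=
  ∑ ω ∈ Y, rk (x ω) - (((Y.card : ℝ) / d : ℝ) : ℂ) • (1 : Matrix (Fin d) (Fin d) ℂ)

theorem dev_isHermitian {Ω : Type*} (x : Ω → Fin d → ℂ) (Y : Finset Ω) :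
    (dev x Y).IsHermitian := by
  unfold dev Matrix.IsHermitian
  rw [conjTranspose_sub, conjTranspose_sum, conjTranspose_smul, conjTranspose_one]
  congr 1
  · apply Finset.sum_congr rfl
    intro ω _
    exact isHermitian_rk (x ω)
  · congr 1
    exact Complex.conj_ofReal _

theorem eig_bound {U Z : Matrix (Fin d) (Fin d) ℂ} {z : Fin d → ℝ} (hU1 : U * star U = 1)
    (hU : star U * U = 1) (hUZ : IsDiag U z Z) {s L : ℝ} (hs : 0 < s) {n : ℕ} (hn : Even n)
    (hn1 : 1 ≤ n) (hL : 0 ≤ L) (hLn : 2 * L ≤ n) (hpot : pot s n Z ≤ s ^ n * Real.exp L)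
    (i : Fin d) : |z i| ≤ 2 * s * L / n := by
  have hn0 : (0 : ℝ) < n := by exact_mod_cast hn1
  by_contra hcon
  push Not at hcon
  have h1 : (s + |z i|) ^ n ≤ pot s n Z := by
    rw [pot_eq hU1 hU hUZ]
    have h2 : (s + |z i|) ^ n ≤ (s + z i) ^ n + (s - z i) ^ n := by
      have h3 : 0 ≤ (s + z i) ^ n := hn.pow_nonneg _
      have h4 : 0 ≤ (s - z i) ^ n := hn.pow_nonneg _
      rcases abs_cases (z i) with ⟨h, -⟩ | ⟨h, -⟩
      · rw [h]; linarith
      · rw [h, ← sub_eq_add_neg]; linarith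
    refine h2.trans ?_
    exact Finset.single_le_sum (f := fun i => (s + z i) ^ n + (s - z i) ^ n)
      (fun j _ => add_nonneg (hn.pow_nonneg _) (hn.pow_nonneg _)) (Finset.mem_univ i)
  set t := 2 * L / n with ht
  have ht0 : 0 ≤ t := by positivity
  have ht1 : t ≤ 1 := by rw [ht, div_le_one hn0]; exact hLn
  have h2 : Real.exp (t / 2) ≤ 1 + t := by
    have h3 := Real.exp_bound_div_one_sub_of_interval (x := t / 2) (by linarith) (by linarith)
    refine h3.trans ?_
    rw [div_le_iff₀ (by linarith)]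
    nlinarith
  have h3 : s * (1 + t) < s + |z i| := by
    have : s * (1 + t) = s + 2 * s * L / n := by rw [ht]; ring
    linarith
  have h4 : (s * (1 + t)) ^ n < (s + |z i|) ^ n :=
    pow_lt_pow_left₀ h3 (by positivity) (by omega)
  have h5 : s ^ n * Real.exp L ≤ (s * (1 + t)) ^ n := by
    rw [mul_pow]
    apply mul_le_mul_of_nonneg_left _ (by positivity)
    calc Real.exp L = Real.exp (t / 2) ^ n := by
          rw [← Real.exp_nat_mul]
          congr 1
          rw [ht]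
          field_simp
      _ ≤ (1 + t) ^ n := pow_le_pow_left₀ (Real.exp_pos _).le h2 n
  linarith

theorem exists_nearly_tight {Ω : Type*} [Fintype Ω] [DecidableEq Ω] {x : Ω → Fin d → ℂ}
    (hx : ∀ ω, star (x ω) ⬝ᵥ x ω = 1) (hd : 1 ≤ d)
    (htight : ∑ ω, rk (x ω) = (((Fintype.card Ω : ℝ) / d : ℝ) : ℂ) •
      (1 : Matrix (Fin d) (Fin d) ℂ))
    {M : ℕ} (hM : M ≤ Fintype.card Ω) {s L : ℝ} (hs : 8 ≤ s) {n : ℕ} (hn : 2 * (n : ℝ) ≤ s)
    (hn1 : 1 ≤ n) (hn2 : Even n) (hL : L = Real.log (2 * d) + 8 * (n / s) ^ 2 * (M / d))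
    (hL2 : 8 * L ≤ n) :
    ∃ (Y : Finset Ω) (U : Matrix (Fin d) (Fin d) ℂ) (z : Fin d → ℝ), Y.card = M ∧
      U * star U = 1 ∧ star U * U = 1 ∧ IsDiag U z (dev x Y) ∧
      ∀ i, |z i| ≤ 2 * s * L / n := by
  have hd0 : (0 : ℝ) < d := by exact_mod_cast hd
  have hd1 : (1 : ℝ) ≤ d := by exact_mod_cast hd
  have hs0 : 0 < s := by linarith
  have hn0 : (0 : ℝ) < n := by exact_mod_cast hn1
  have hlog : 0 ≤ Real.log (2 * d) := Real.log_nonneg (by linarith)
  have hL0 : 0 ≤ L := by rw [hL]; positivity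
  -- the bound of the potential implies the bound of the eigenvalues
  have hbound : ∀ (k : ℕ), k ≤ M → ∀ P : ℝ,
      P ≤ Real.exp (8 * (n / s) ^ 2 * (1 / d)) ^ k * (2 * d * s ^ n) →
      P ≤ s ^ n * Real.exp L := by
    intro k hk P hP
    refine hP.trans ?_
    rw [← Real.exp_nat_mul, hL, Real.exp_add, Real.exp_log (by positivity)]
    have h1 : Real.exp ((k : ℝ) * (8 * (n / s) ^ 2 * (1 / d))) ≤
        Real.exp (8 * (n / s) ^ 2 * (M / d)) := by
      apply Real.exp_le_exp.2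
      have hkM : (k : ℝ) ≤ M := by exact_mod_cast hk
      have : (k : ℝ) * (8 * (n / s) ^ 2 * (1 / d)) = 8 * (n / s) ^ 2 * (k / d) := by ring
      rw [this]
      gcongr
    calc _ ≤ Real.exp (8 * (n / s) ^ 2 * (M / d)) * (2 * d * s ^ n) := by gcongr
      _ = _ := by ring
  have hmain : ∀ k : ℕ, k ≤ M → ∃ Y : Finset Ω, Y.card = k ∧ pot s n (dev x Y) ≤
      Real.exp (8 * (n / s) ^ 2 * (1 / d)) ^ k * (2 * d * s ^ n) := by
    intro k
    induction k with
    | zero =>
      intro _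
      refine ⟨∅, rfl, ?_⟩
      have h1 : dev x (∅ : Finset Ω) = 0 := by simp [dev]
      rw [h1, pow_zero, one_mul]
      have h2 : IsDiag (1 : Matrix (Fin d) (Fin d) ℂ) (fun _ => 0) (0 : Matrix (Fin d) (Fin d) ℂ) := by
        unfold IsDiag; simp
      rw [pot_eq (by simp) (by simp) h2]
      simp only [add_zero, sub_zero, Finset.sum_const, Finset.card_univ, Fintype.card_fin,
        nsmul_eq_mul]
      exact le_of_eq (by ring)
    | succ k ih =>
      intro hk
      obtain ⟨Y, hY, hpot⟩ := ih (by omega)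
      obtain ⟨U, z, hU1, hU, hUZ⟩ := exists_diag (dev_isHermitian x Y)
      have hz := eig_bound hU1 hU hUZ hs0 hn2 hn1 hL0 (by linarith)
        (hbound k (by omega) _ hpot)
      have hz4 : ∀ i, |z i| ≤ s / 4 := by
        intro i
        refine (hz i).trans ?_
        rw [div_le_div_iff₀ hn0 (by norm_num)]
        nlinarith
      obtain ⟨ω, hω, hω2⟩ := one_step hx hd htight (Y := Y) (by omega) (Z := dev x Y) rfl hU1 hU
        hUZ hs hz4 hn hn1
      refine ⟨insert ω Y, by rw [Finset.card_insert_of_notMem hω, hY], ?_⟩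
      have h1 : dev x (insert ω Y) = dev x Y + rk (x ω) - (((1 : ℝ) / d : ℝ) : ℂ) •
          (1 : Matrix (Fin d) (Fin d) ℂ) := by
        unfold dev
        rw [Finset.sum_insert hω, Finset.card_insert_of_notMem hω]
        have : (((Y.card + 1 : ℕ) : ℝ) / d : ℝ) = (Y.card : ℝ) / d + 1 / d := by push_cast; ring
        rw [this]
        push_cast
        rw [add_smul]
        abel
      rw [h1, pow_succ']
      exact hω2.trans ((mul_le_mul_of_nonneg_left hpot (Real.exp_pos _).le).trans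
        (le_of_eq (by ring)))
  obtain ⟨Y, hY, hpot⟩ := hmain M le_rfl
  obtain ⟨U, z, hU1, hU, hUZ⟩ := exists_diag (dev_isHermitian x Y)
  exact ⟨Y, U, z, hY, hU1, hU, hUZ, eig_bound hU1 hU hUZ hs0 hn2 hn1 hL0 (by linarith)
    (hbound M le_rfl _ hpot)⟩

end Pool.Agent.Lib.MP_d0f9e0_co.Approx
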