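import Pool.Agent.Lib.MP_d0f9e0_co.Approx.Main
import Pool.Agent.Lib.MP_d0f9e0_co.Approx.Tight

/-!
# Nearly tight, nearly equiangular families of `d ^ 2` vectors in every large dimension
-/

set_option autoImplicit false

open Finset Filter Matrix
open scoped InnerProductSpace

namespace Pool.Agent.Lib.MP_d0f9e0_co.Approx

section char

variable {A : Type} [AddCommGroup A] [Fintype A] {d : ℕ}

/-- the vector of a character restricted to a set -/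
noncomputable def cv (s : Fin d → A) (ψ : AddChar A ℂ) (k : Fin d) : ℂ :=
  ψ (s k) / (Real.sqrt d : ℝ)

theorem star_cv_mul (s : Fin d → A) (ψ φ : AddChar A ℂ) (k l : Fin d) (hd : 0 < d) :
    cv s ψ k * star (cv s φ l) = ψ (s k) * φ (-(s l)) / d := by
  have h0 : (0 : ℝ) < d := by exact_mod_cast hd
  have h1 : ((Real.sqrt d : ℝ) : ℂ) * ((Real.sqrt d : ℝ) : ℂ) = d := by
    rw [← Complex.ofReal_mul, Real.mul_self_sqrt h0.le]; norm_cast
  unfold cv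
  rw [RCLike.star_def, map_div₀, Complex.conj_ofReal, ← AddChar.map_neg_eq_conj, div_mul_div_comm,
    h1]

theorem cv_inner (s : Fin d → A) (ψ φ : AddChar A ℂ) (hd : 0 < d) :
    star (cv s ψ) ⬝ᵥ cv s φ = (∑ k, (φ - ψ) (s k)) / d := by
  rw [dotProduct, Finset.sum_div]
  apply Finset.sum_congr rfl
  intro k _
  rw [Pi.star_apply, mul_comm, star_cv_mul s φ ψ k k hd, AddChar.sub_apply]

theorem cv_unit (s : Fin d → A) (ψ : AddChar A ℂ) (hd : 0 < d) :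
    star (cv s ψ) ⬝ᵥ cv s ψ = 1 := by
  have h0 : (d : ℂ) ≠ 0 := by exact_mod_cast hd.ne'
  rw [cv_inner s ψ ψ hd]
  simp [h0]

theorem cv_tight [DecidableEq A] {s : Fin d → A} (hs : Function.Injective s) (hd : 0 < d) :
    ∑ ψ : AddChar A ℂ, rk (cv s ψ) = (((Fintype.card (AddChar A ℂ) : ℝ) / d : ℝ) : ℂ) •
      (1 : Matrix (Fin d) (Fin d) ℂ) := by
  ext k l
  rw [Matrix.sum_apply]
  have h1 : ∀ ψ : AddChar A ℂ, rk (cv s ψ) k l = ψ (s k - s l) / d := by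
    intro ψ
    rw [rk, vecMulVec_apply, Pi.star_apply, star_cv_mul s ψ ψ k l hd, sub_eq_add_neg,
      AddChar.map_add_eq_mul]
  rw [Finset.sum_congr rfl (fun ψ _ => h1 ψ), ← Finset.sum_div, AddChar.sum_apply_eq_ite,
    Matrix.smul_apply, Matrix.one_apply, AddChar.card_eq]
  by_cases h : k = l
  · subst h
    simp
  · have : s k - s l ≠ 0 := sub_ne_zero.2 fun h2 => h (hs h2)
    simp [h, this]

end char

theorem qf_rk {d : ℕ} (x v : Fin d → ℂ) : qf (rk x) v = ((‖star x ⬝ᵥ v‖ ^ 2 : ℝ) : ℂ) := by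
  unfold qf
  rw [rk_mulVec, dotProduct_smul, smul_eq_mul]
  have h1 : star v ⬝ᵥ x = star (star x ⬝ᵥ v) := by
    rw [star_dotProduct]
  rw [h1, RCLike.star_def, Complex.mul_conj']
  push_cast
  rfl

/-- the numerical choices -/
theorem choices {ϖ : ℝ} (h0 : 0 < ϖ) (h1 : ϖ ≤ 1) : ∀ᶠ d : ℝ in atTop,
    8 ≤ d ∧ 1 ≤ Real.log d ∧ ∃ n : ℕ, 1 ≤ n ∧ Even n ∧ 2 * (n : ℝ) ≤ d ∧
      ∀ M : ℝ, 0 ≤ M → M ≤ 4 * ϖ ^ 2 * d ^ 2 / Real.log d →
      8 * (Real.log (2 * d) + 8 * (n / d) ^ 2 * (M / d)) ≤ n ∧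
      2 * d * (Real.log (2 * d) + 8 * (n / d) ^ 2 * (M / d)) / n ≤ 260 * ϖ * Real.sqrt d := by
  have e1 := (isLittleO_log_rpow_atTop (r := 1 / 2) (by norm_num)).bound
    (by positivity : 0 < ϖ / 4)
  filter_upwards [e1, eventually_ge_atTop (2000000 : ℝ),
    Real.tendsto_log_atTop.eventually_ge_atTop 1] with d hd1 hd2 hlog
  have hd0 : 0 < d := by linarith
  have hlog0 : 0 < Real.log d := by linarith
  set R := Real.sqrt d with hR
  have hRsq : R ^ 2 = d := Real.sq_sqrt hd0.le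
  have hR0 : 0 < R := Real.sqrt_pos.2 hd0
  have hR1 : 1400 ≤ R := by
    rw [hR]
    apply Real.le_sqrt_of_sq_le
    linarith
  rw [← Real.sqrt_eq_rpow, Real.norm_of_nonneg hlog0.le, Real.norm_of_nonneg hR0.le] at hd1
  refine ⟨by linarith, hlog, ?_⟩
  set ν := Real.log d * R / ϖ with hν
  have hνR : 1400 ≤ ν := by
    rw [hν, le_div_iff₀ h0]
    nlinarith
  set n : ℕ := 2 * ⌈ν / 2⌉₊ with hn
  have hn1 : ν ≤ n := by
    rw [hn]; push_cast
    have := Nat.le_ceil (ν / 2)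
    linarith
  have hn2 : (n : ℝ) ≤ 2 * ν := by
    rw [hn]; push_cast
    have := (Nat.ceil_lt_add_one (by linarith : 0 ≤ ν / 2)).le
    linarith
  have hn0 : (0 : ℝ) < n := by linarith
  refine ⟨n, by exact_mod_cast (by linarith : (1 : ℝ) ≤ n), even_two_mul _, ?_, ?_⟩
  · -- `2 n ≤ d`
    have h2 : 4 * ν ≤ d := by
      rw [hν, mul_div_assoc', div_le_iff₀ h0]
      have h3 : 4 * (Real.log d * R) ≤ ϖ * (R * R) := by nlinarith
      have h4 : R * R = d := by rw [← hRsq]; ring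
      rw [h4] at h3
      linarith
    linarith
  · intro M hM0 hM
    have hlog2 : Real.log (2 * d) ≤ 2 * Real.log d := by
      rw [Real.log_mul (by norm_num) hd0.ne']
      have : Real.log 2 ≤ Real.log d := Real.log_le_log (by norm_num) (by linarith)
      linarith
    have hL : Real.log (2 * d) + 8 * (n / d) ^ 2 * (M / d) ≤ 130 * Real.log d := by
      have h3 : 8 * (n / d) ^ 2 * (M / d) ≤
          8 * (2 * ν / d) ^ 2 * ((4 * ϖ ^ 2 * d ^ 2 / Real.log d) / d) := by gcongr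
      have h4 : 8 * (2 * ν / d) ^ 2 * ((4 * ϖ ^ 2 * d ^ 2 / Real.log d) / d) =
          128 * Real.log d * (R ^ 2 / d) := by
        rw [hν]
        field_simp
        ring
      rw [h4, hRsq, div_self hd0.ne', mul_one] at h3
      linarith
    have hL0 : 0 ≤ Real.log (2 * d) + 8 * (n / d) ^ 2 * (M / d) := by
      have : 0 ≤ Real.log (2 * d) := Real.log_nonneg (by linarith)
      positivity
    constructor
    · have h5 : 1040 * Real.log d ≤ ν := by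
        rw [hν, le_div_iff₀ h0]
        nlinarith
      linarith
    · rw [div_le_iff₀ hn0]
      have h6 : 260 * ϖ * R * ν = 260 * Real.log d * d := by
        rw [hν, ← hRsq]
        field_simp
      have h7 : 260 * ϖ * R * ν ≤ 260 * ϖ * R * n := by gcongr
      have h8 : 2 * d * (Real.log (2 * d) + 8 * (n / d) ^ 2 * (M / d)) ≤
          2 * d * (130 * Real.log d) := by gcongr
      linarith

theorem exists_near {η ϖ : ℝ} (hη0 : 0 < η) (hη1 : η ≤ 1 / 8) (hϖ0 : 0 < ϖ)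
    (hϖ : ϖ ^ 2 ≤ η ^ 2 / 40) : ∃ d0 : ℕ, ∀ d : ℕ, d0 ≤ d →
    ∃ x : Fin (d ^ 2) → EuclideanSpace ℂ (Fin d), (∀ i, ‖x i‖ = 1) ∧
      (∀ v, |∑ i, ‖⟪x i, v⟫_ℂ‖ ^ 2 - d * ‖v‖ ^ 2| ≤ 260 * ϖ * Real.sqrt d * ‖v‖ ^ 2) ∧
      ∀ i j, i ≠ j → |Real.sqrt d * ‖⟪x i, x j⟫_ℂ‖ - 1| ≤ 4 * η := by
  classical
  have hϖ1 : ϖ ≤ 1 := by
    by_contra hc
    push Not at hc
    nlinarith
  obtain ⟨d1, hd1⟩ := exists_flat hη0 hη1 (κ := ϖ ^ 2) (by positivity) hϖ
  obtain ⟨x2, hx2⟩ := Filter.eventually_atTop.1 (choices hϖ0 hϖ1)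
  refine ⟨max d1 ⌈x2⌉₊, fun d hd => ?_⟩
  have hdx : x2 ≤ d := (Nat.le_ceil x2).trans (by exact_mod_cast (le_max_right _ _).trans hd)
  obtain ⟨hd8, hlog1, n, hn1, hn2, hn3, hn4⟩ := hx2 d hdx
  obtain ⟨A, iA, iF, S, hA1, hA2, hS1, hS2⟩ := hd1 d ((le_max_left _ _).trans hd)
  have hd0 : (0 : ℝ) < d := by linarith
  have hdpos : 0 < d := by exact_mod_cast hd0
  let e := Finset.equivFinOfCardEq hS1
  let s : Fin d → A := fun k => (e.symm k : A)
  have hs : Function.Injective s := fun a b h => e.symm.injective (Subtype.ext h)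
  have hsum : ∀ f : A → ℂ, ∑ k, f (s k) = ∑ a ∈ S, f a := by
    intro f
    rw [← Finset.sum_coe_sort S f]
    exact Equiv.sum_comp e.symm (fun a : S => f a)
  have hM0 : Fintype.card A - d ^ 2 ≤ Fintype.card (AddChar A ℂ) := by
    rw [AddChar.card_eq]; omega
  have hMR : ((Fintype.card A - d ^ 2 : ℕ) : ℝ) = Fintype.card A - d ^ 2 := by
    rw [Nat.cast_sub hA1]; push_cast; rfl
  obtain ⟨hL1, hL2⟩ := hn4 ((Fintype.card A - d ^ 2 : ℕ) : ℝ) (Nat.cast_nonneg _) (by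
    rw [hMR]; linarith)
  obtain ⟨Y, U, z, hY, hU1, hU2, hZ, hz⟩ := exists_nearly_tight (x := cv s)
    (fun ψ => cv_unit s ψ hdpos) hdpos (cv_tight hs hdpos) hM0 hd8 hn3 hn1 hn2 rfl hL1
  have hcardK : Fintype.card (Yᶜ : Finset (AddChar A ℂ)) = d ^ 2 := by
    rw [Fintype.card_coe, Finset.card_compl, hY, AddChar.card_eq]
    omega
  let g := Fintype.equivFinOfCardEq hcardK
  refine ⟨fun i => WithLp.toLp 2 (cv s (g.symm i : AddChar A ℂ)), ?_, ?_, ?_⟩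
  · intro i
    have h1 := cv_unit s (g.symm i : AddChar A ℂ) hdpos
    rw [star_dot_self] at h1
    have h2 : ‖WithLp.toLp 2 (cv s (g.symm i : AddChar A ℂ))‖ ^ 2 = 1 := by
      rw [EuclideanSpace.norm_sq_eq]
      exact_mod_cast h1
    have h3 : 0 ≤ ‖WithLp.toLp 2 (cv s (g.symm i : AddChar A ℂ))‖ := norm_nonneg _
    nlinarith
  · intro v
    have h1 : ∀ ψ : AddChar A ℂ, ((‖⟪WithLp.toLp 2 (cv s ψ), v⟫_ℂ‖ ^ 2 : ℝ) : ℂ) =
        qf (rk (cv s ψ)) v.ofLp := by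
      intro ψ
      rw [qf_rk, EuclideanSpace.inner_eq_star_dotProduct, dotProduct_comm]
    have h2 : ((∑ i, ‖⟪WithLp.toLp 2 (cv s (g.symm i : AddChar A ℂ)), v⟫_ℂ‖ ^ 2 : ℝ) : ℂ) =
        ∑ ψ ∈ Yᶜ, qf (rk (cv s ψ)) v.ofLp := by
      rw [← Finset.sum_coe_sort Yᶜ (fun ψ => qf (rk (cv s ψ)) v.ofLp)]
      push_cast
      rw [← Equiv.sum_comp g.symm (fun ψ : (Yᶜ : Finset (AddChar A ℂ)) =>
        qf (rk (cv s ψ)) v.ofLp)]
      apply Finset.sum_congr rfl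
      intro i _
      rw [← h1]
      push_cast
      rfl
    have hqs : ∀ T : Finset (AddChar A ℂ), ∑ ψ ∈ T, qf (rk (cv s ψ)) v.ofLp =
        qf (∑ ψ ∈ T, rk (cv s ψ)) v.ofLp := by
      intro T
      unfold qf
      rw [Matrix.sum_mulVec, dotProduct_sum]
    have hv : star v.ofLp ⬝ᵥ v.ofLp = ((‖v‖ ^ 2 : ℝ) : ℂ) := by
      rw [star_dot_self, EuclideanSpace.norm_sq_eq]
    have hqc : ∀ c : ℂ, qf (c • (1 : Matrix (Fin d) (Fin d) ℂ)) v.ofLp = c * (‖v‖ ^ 2 : ℝ) := by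
      intro c
      unfold qf
      rw [Matrix.smul_mulVec, Matrix.one_mulVec, dotProduct_smul, hv, smul_eq_mul]
    have h3 : ∑ ψ ∈ Yᶜ, qf (rk (cv s ψ)) v.ofLp + ∑ ψ ∈ Y, qf (rk (cv s ψ)) v.ofLp =
        (((Fintype.card (AddChar A ℂ) : ℝ) / d : ℝ) : ℂ) * (‖v‖ ^ 2 : ℝ) := by
      rw [Finset.sum_compl_add_sum, hqs, cv_tight hs hdpos, hqc]
    have h4 : ∑ ψ ∈ Y, qf (rk (cv s ψ)) v.ofLp = ((∑ i, wt U v.ofLp i * z i : ℝ) : ℂ) +
        (((Y.card : ℝ) / d : ℝ) : ℂ) * (‖v‖ ^ 2 : ℝ) := by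
      rw [hqs, ← hZ.qf v.ofLp, ← hqc, ← qf_add]
      congr 1
      unfold dev
      abel
    rw [h4] at h3
    rw [← h2] at h3
    have h5 : ∑ i, ‖⟪WithLp.toLp 2 (cv s (g.symm i : AddChar A ℂ)), v⟫_ℂ‖ ^ 2 +
        (∑ i, wt U v.ofLp i * z i + (Y.card : ℝ) / d * ‖v‖ ^ 2) =
        (Fintype.card (AddChar A ℂ) : ℝ) / d * ‖v‖ ^ 2 := by exact_mod_cast h3
    have h6 : (Fintype.card (AddChar A ℂ) : ℝ) / d * ‖v‖ ^ 2 - (Y.card : ℝ) / d * ‖v‖ ^ 2 =
        d * ‖v‖ ^ 2 := by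
      rw [hY, AddChar.card_eq, hMR]
      field_simp
      ring
    have h7 : ∑ i, ‖⟪WithLp.toLp 2 (cv s (g.symm i : AddChar A ℂ)), v⟫_ℂ‖ ^ 2 - d * ‖v‖ ^ 2 =
        -∑ i, wt U v.ofLp i * z i := by linarith
    rw [h7, abs_neg]
    refine (Finset.abs_sum_le_sum_abs _ _).trans ?_
    have h8 : ∑ i, wt U v.ofLp i = ‖v‖ ^ 2 := by
      have := sum_wt (U := U) hU1 v.ofLp
      rw [hv] at this
      exact_mod_cast this
    rw [← h8, Finset.mul_sum]
    apply Finset.sum_le_sum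
    intro i _
    rw [abs_mul, abs_of_nonneg (wt_nonneg U v.ofLp i), mul_comm]
    exact mul_le_mul_of_nonneg_right ((hz i).trans hL2) (wt_nonneg U v.ofLp i)
  · intro i j hij
    have hne : (g.symm j : AddChar A ℂ) - (g.symm i : AddChar A ℂ) ≠ 0 := by
      rw [sub_ne_zero]
      intro h
      exact hij (g.symm.injective (Subtype.ext h.symm))
    obtain ⟨h1, h2⟩ := hS2 _ hne
    have h3 : ‖⟪WithLp.toLp 2 (cv s (g.symm i : AddChar A ℂ)),
        WithLp.toLp 2 (cv s (g.symm j : AddChar A ℂ))⟫_ℂ‖ =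
        ‖∑ a ∈ S, ((g.symm j : AddChar A ℂ) - (g.symm i : AddChar A ℂ)) a‖ / d := by
      rw [EuclideanSpace.inner_eq_star_dotProduct, dotProduct_comm]
      change ‖star (cv s (g.symm i : AddChar A ℂ)) ⬝ᵥ cv s (g.symm j : AddChar A ℂ)‖ = _
      rw [cv_inner s _ _ hdpos, norm_div, hsum]
      simp
    rw [h3]
    set R := Real.sqrt d with hR
    have hR0 : 0 < R := Real.sqrt_pos.2 hd0
    have hRsq : (d : ℝ) = R * R := (Real.mul_self_sqrt hd0.le).symm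
    set t := ‖∑ a ∈ S, ((g.symm j : AddChar A ℂ) - (g.symm i : AddChar A ℂ)) a‖
    have h4 : R * (t / d) - 1 = (t - R) / R := by
      rw [hRsq]
      field_simp
    rw [h4, abs_div, abs_of_pos hR0, div_le_iff₀ hR0, abs_le]
    constructor <;> linarith

end Pool.Agent.Lib.MP_d0f9e0_co.Approx
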