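import Pool.Agent.Lib.MP_d0f9e0_co.Approx.Step2

/-!
# Selection of a nearly tight subset of a tight frame
-/

set_option autoImplicit false

open Matrix Finset

namespace Pool.Agent.Lib.MP_d0f9e0_co.Approx

variable {d : ℕ}

theorem wt_eq (U : Matrix (Fin d) (Fin d) ℂ) (x : Fin d → ℂ) (i : Fin d) :
    ((wt U x i : ℝ) : ℂ) = (star U * rk x * U) i i := by
  unfold wt
  have h1 : star U * rk x * U = vecMulVec (star U *ᵥ x) (star (star U *ᵥ x)) := by
    unfold rk
    rw [mul_vecMulVec, vecMulVec_mul]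
    congr 1
    rw [star_mulVec, star_eq_conjTranspose, conjTranspose_conjTranspose]
  rw [h1, vecMulVec_apply, Pi.star_apply]
  push_cast
  rw [← Complex.mul_conj']
  rfl

/-- sums against monotone functions -/
theorem sum_mul_mono_nonneg {ι : Type*} [Fintype ι] {z g : ι → ℝ} {g0 : ℝ}
    (hz : ∑ i, z i = 0) (hg : ∀ i, (0 ≤ z i → g0 ≤ g i) ∧ (z i ≤ 0 → g i ≤ g0)) :
    0 ≤ ∑ i, z i * g i := by
  have h1 : ∑ i, z i * g i = ∑ i, z i * (g i - g0) := by
    simp only [mul_sub, Finset.sum_sub_distrib, ← Finset.sum_mul, hz, zero_mul, sub_zero]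
  rw [h1]
  apply Finset.sum_nonneg
  intro i _
  rcases le_total 0 (z i) with h | h
  · exact mul_nonneg h (by linarith [(hg i).1 h])
  · exact mul_nonneg_of_nonpos_of_nonpos h (by linarith [(hg i).2 h])

theorem pow_sub_mono {a b : ℝ} (ha : 0 ≤ a) (hab : a ≤ b) (n : ℕ) :
    (a + 1) ^ n - a ^ n ≤ (b + 1) ^ n - b ^ n := by
  have h1 := geom_sum₂_mul (a + 1) a n
  have h2 := geom_sum₂_mul (b + 1) b n
  rw [add_sub_cancel_left, mul_one] at h1 h2
  rw [← h1, ← h2]
  apply Finset.sum_le_sum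
  intro j _
  have h3 : 0 ≤ a + 1 := by linarith
  have h4 : a + 1 ≤ b + 1 := by linarith
  have h5 : 0 ≤ b + 1 := by linarith
  gcongr

/-- the potential -/
noncomputable def pot (s : ℝ) (n : ℕ) (Z : Matrix (Fin d) (Fin d) ℂ) : ℝ :=
  (((s : ℂ) • (1 : Matrix (Fin d) (Fin d) ℂ) + Z) ^ n).trace.re +
    (((s : ℂ) • (1 : Matrix (Fin d) (Fin d) ℂ) - Z) ^ n).trace.re

theorem pot_eq {U Z : Matrix (Fin d) (Fin d) ℂ} {z : Fin d → ℝ} (hU1 : U * star U = 1)
    (hU : star U * U = 1) (hZ : IsDiag U z Z) (s : ℝ) (n : ℕ) :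
    pot s n Z = ∑ i, ((s + z i) ^ n + (s - z i) ^ n) := by
  unfold pot
  have h1 := (((IsDiag.const hU1 s).add hZ).pow hU1 hU n).trace hU
  have h2 := (((IsDiag.const hU1 s).sub hZ).pow hU1 hU n).trace hU
  rw [h1, h2, Complex.ofReal_re, Complex.ofReal_re, Finset.sum_add_distrib]

theorem one_step {Ω : Type*} [Fintype Ω] [DecidableEq Ω] {x : Ω → Fin d → ℂ}
    (hx : ∀ ω, star (x ω) ⬝ᵥ x ω = 1) (hd : 1 ≤ d)
    (htight : ∑ ω, rk (x ω) = (((Fintype.card Ω : ℝ) / d : ℝ) : ℂ) •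
      (1 : Matrix (Fin d) (Fin d) ℂ))
    {Y : Finset Ω} (hY : Y.card < Fintype.card Ω) {Z U : Matrix (Fin d) (Fin d) ℂ}
    (hZ : Z = ∑ ω ∈ Y, rk (x ω) - (((Y.card : ℝ) / d : ℝ) : ℂ) •
      (1 : Matrix (Fin d) (Fin d) ℂ))
    {z : Fin d → ℝ} (hU1 : U * star U = 1) (hU : star U * U = 1) (hUZ : IsDiag U z Z)
    {s : ℝ} (hs : 8 ≤ s) (hz : ∀ i, |z i| ≤ s / 4) {n : ℕ} (hn : 2 * (n : ℝ) ≤ s)
    (hn1 : 1 ≤ n) :
    ∃ ω, ω ∉ Y ∧ pot s n (Z + rk (x ω) - (((1 : ℝ) / d : ℝ) : ℂ) •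
      (1 : Matrix (Fin d) (Fin d) ℂ)) ≤ Real.exp (8 * (n / s) ^ 2 * (1 / d)) * pot s n Z := by
  have hd0 : (0 : ℝ) < d := by exact_mod_cast hd
  have hd1 : (1 : ℝ) ≤ d := by exact_mod_cast hd
  set p : ℝ := 1 / d with hp
  have hp0 : 0 < p := by positivity
  have hp1 : p ≤ 1 := by rw [hp, div_le_one hd0]; exact hd1
  set N : ℝ := ((Fintype.card Ω : ℕ) : ℝ) with hN
  set k : ℝ := ((Y.card : ℕ) : ℝ) with hk
  have hNk : 0 < N - k := by
    have : (Y.card : ℝ) < Fintype.card Ω := by exact_mod_cast hY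
    linarith
  set β := (s / 2 / (s / 2 + 1)) ^ (n - 1) with hβ
  have hβ0 : 0 ≤ β := by positivity
  -- the trace of `Z` is zero
  have hz0 : ∑ i, z i = 0 := by
    have h1 := hUZ.trace hU
    have h2 : Z.trace = 0 := by
      rw [hZ, trace_sub, trace_sum, trace_smul, trace_one, Fintype.card_fin]
      have h3 : ∀ ω ∈ Y, (rk (x ω)).trace = 1 := by
        intro ω _
        have h4 := trace_mul_rk (1 : Matrix (Fin d) (Fin d) ℂ) (x ω)
        rw [Matrix.one_mul] at h4
        rw [h4]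
        unfold qf
        rw [one_mulVec, hx]
      rw [Finset.sum_congr rfl h3, Finset.sum_const, nsmul_eq_mul, mul_one, smul_eq_mul]
      have : (d : ℂ) ≠ 0 := by exact_mod_cast hd0.ne'
      push_cast
      field_simp
      rw [hk]
      push_cast
      ring
    rw [h2] at h1
    exact_mod_cast h1.symm
  -- the sum of the weights over the remaining indices
  have hwt : ∀ i, ∑ ω ∈ univ \ Y, wt U (x ω) i = (N - k) * p - z i := by
    intro i
    have h1 : ∑ ω ∈ univ \ Y, rk (x ω) = (((N - k) * p : ℝ) : ℂ) •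
        (1 : Matrix (Fin d) (Fin d) ℂ) - Z := by
      have h2 := Finset.sum_sdiff (f := fun ω => rk (x ω)) (Finset.subset_univ Y)
      rw [htight] at h2
      have h3 : ∑ ω ∈ Y, rk (x ω) = Z + (((k / d : ℝ)) : ℂ) •
          (1 : Matrix (Fin d) (Fin d) ℂ) := by rw [hZ, sub_add_cancel]
      rw [h3] at h2
      have h4 : ∑ ω ∈ univ \ Y, rk (x ω) = ((N / d : ℝ) : ℂ) •
          (1 : Matrix (Fin d) (Fin d) ℂ) - (Z + (((k / d : ℝ)) : ℂ) •
          (1 : Matrix (Fin d) (Fin d) ℂ)) := by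
        rw [← h2, add_sub_cancel_right]
      rw [h4]
      have h5 : (N - k) * p = N / d - k / d := by rw [hp]; ring
      rw [h5]
      push_cast
      rw [sub_smul]
      abel
    have h6 : ((∑ ω ∈ univ \ Y, wt U (x ω) i : ℝ) : ℂ) = (((N - k) * p - z i : ℝ) : ℂ) := by
      push_cast
      simp only [wt_eq]
      have h7 : ∑ ω ∈ univ \ Y, (star U * rk (x ω) * U) i i =
          (star U * (∑ ω ∈ univ \ Y, rk (x ω)) * U) i i := by
        rw [Finset.mul_sum, Finset.sum_mul, Matrix.sum_apply]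
      rw [h7, h1]
      have h8 : star U * ((((N - k) * p : ℝ) : ℂ) • (1 : Matrix (Fin d) (Fin d) ℂ) - Z) * U =
          (((N - k) * p : ℝ) : ℂ) • (1 : Matrix (Fin d) (Fin d) ℂ) -
            diagonal (fun i => (z i : ℂ)) := by
        have h9 : Z = U * diagonal (fun i => (z i : ℂ)) * star U := hUZ
        rw [Matrix.mul_sub, Matrix.sub_mul, Matrix.mul_smul, Matrix.smul_mul, Matrix.mul_one, hU,
          h9]
        congr 1
        have : star U * (U * diagonal (fun i => (z i : ℂ)) * star U) * U =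
            (star U * U) * diagonal (fun i => (z i : ℂ)) * (star U * U) := by
          simp only [Matrix.mul_assoc]
        rw [this, hU, Matrix.one_mul, Matrix.mul_one]
      rw [h8, Matrix.sub_apply, Matrix.smul_apply, Matrix.one_apply_eq, diagonal_apply_eq]
      push_cast
      simp
    exact_mod_cast h6
  -- the bounds for every index
  have hup : ∀ ω, (((s : ℂ) • (1 : Matrix (Fin d) (Fin d) ℂ) + (Z + rk (x ω) - ((p : ℝ) : ℂ) •
      (1 : Matrix (Fin d) (Fin d) ℂ))) ^ n).trace.re ≤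
      ∑ i, ((s + z i - p) ^ n + wt U (x ω) i * ((s + z i - p + 1) ^ n - (s + z i - p) ^ n)) := by
    intro ω
    have e : (s : ℂ) • (1 : Matrix (Fin d) (Fin d) ℂ) + (Z + rk (x ω) - ((p : ℝ) : ℂ) •
        (1 : Matrix (Fin d) (Fin d) ℂ)) = ((s : ℂ) • (1 : Matrix (Fin d) (Fin d) ℂ) + Z -
        ((p : ℝ) : ℂ) • (1 : Matrix (Fin d) (Fin d) ℂ)) + rk (x ω) := by abel
    rw [e]
    exact trace_upper hU1 hU (((IsDiag.const hU1 s).add hUZ).sub (IsDiag.const hU1 p))
      (fun i => by have := (abs_le.1 (hz i)).1; linarith) (hx ω) n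
  have hlo : ∀ ω, (((s : ℂ) • (1 : Matrix (Fin d) (Fin d) ℂ) - (Z + rk (x ω) - ((p : ℝ) : ℂ) •
      (1 : Matrix (Fin d) (Fin d) ℂ))) ^ n).trace.re ≤
      ∑ i, ((s - z i + p) ^ n - n * β * (wt U (x ω) i * (s - z i + p) ^ (n - 1))) := by
    intro ω
    set C := (s : ℂ) • (1 : Matrix (Fin d) (Fin d) ℂ) - (Z + rk (x ω) - ((p : ℝ) : ℂ) •
      (1 : Matrix (Fin d) (Fin d) ℂ)) with hC
    have hC1 : IsDiag U (fun i => s - z i + p) (C + rk (x ω)) := by
      have h1 := ((IsDiag.const hU1 s).sub hUZ).add (IsDiag.const hU1 p)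
      have e : C + rk (x ω) = (s : ℂ) • (1 : Matrix (Fin d) (Fin d) ℂ) - Z +
          (p : ℂ) • (1 : Matrix (Fin d) (Fin d) ℂ) := by rw [hC]; abel
      rw [e]
      exact h1
    obtain ⟨V, l, hV1, hV, hVl, hlc⟩ := exists_diag_sub hU1 hC1 (hx ω) (c := s / 2)
      (fun i => by have := (abs_le.1 (hz i)).2; linarith)
    exact trace_lower hV1 hV hVl (by linarith) hlc hU1 hU hC1 (hx ω)
  -- the average
  have hne : (univ \ Y).Nonempty := by
    rw [← Finset.card_pos, Finset.card_sdiff_of_subset (Finset.subset_univ Y), Finset.card_univ]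
    omega
  have hcard : ((univ \ Y).card : ℝ) = N - k := by
    rw [Finset.card_sdiff_of_subset (Finset.subset_univ Y), Finset.card_univ,
      Nat.cast_sub hY.le]
  have hsum : ∑ ω ∈ univ \ Y, pot s n (Z + rk (x ω) - ((p : ℝ) : ℂ) •
      (1 : Matrix (Fin d) (Fin d) ℂ)) ≤
      ∑ _ω ∈ univ \ Y, Real.exp (8 * (n / s) ^ 2 * p) * pot s n Z := by
    rw [Finset.sum_const, nsmul_eq_mul, hcard, pot_eq hU1 hU hUZ]
    have h1 : ∑ ω ∈ univ \ Y, pot s n (Z + rk (x ω) - ((p : ℝ) : ℂ) •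
        (1 : Matrix (Fin d) (Fin d) ℂ)) ≤ ∑ ω ∈ univ \ Y,
        (∑ i, ((s + z i - p) ^ n + wt U (x ω) i * ((s + z i - p + 1) ^ n - (s + z i - p) ^ n)) +
        ∑ i, ((s - z i + p) ^ n - n * β * (wt U (x ω) i * (s - z i + p) ^ (n - 1)))) :=
      Finset.sum_le_sum fun ω _ => add_le_add (hup ω) (hlo ω)
    refine h1.trans ?_
    rw [Finset.sum_add_distrib, Finset.sum_comm, Finset.sum_comm (s := univ \ Y)]
    have h2 : ∀ i, ∑ ω ∈ univ \ Y, ((s + z i - p) ^ n +
        wt U (x ω) i * ((s + z i - p + 1) ^ n - (s + z i - p) ^ n)) =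
        (N - k) * ((s + z i - p) ^ n + p * ((s + z i - p + 1) ^ n - (s + z i - p) ^ n)) -
        z i * ((s + z i - p + 1) ^ n - (s + z i - p) ^ n) := by
      intro i
      rw [Finset.sum_add_distrib, ← Finset.sum_mul, hwt, Finset.sum_const, nsmul_eq_mul, hcard]
      ring
    have h3 : ∀ i, ∑ ω ∈ univ \ Y, ((s - z i + p) ^ n -
        n * β * (wt U (x ω) i * (s - z i + p) ^ (n - 1))) =
        (N - k) * ((s - z i + p) ^ n - n * β * (p * (s - z i + p) ^ (n - 1))) +
        n * β * (z i * (s - z i + p) ^ (n - 1)) := by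
      intro i
      rw [Finset.sum_sub_distrib, ← Finset.mul_sum, ← Finset.sum_mul, hwt, Finset.sum_const,
        nsmul_eq_mul, hcard]
      ring
    simp only [h2, h3]
    rw [Finset.sum_sub_distrib, Finset.sum_add_distrib, ← Finset.mul_sum, ← Finset.mul_sum,
      ← Finset.mul_sum]
    have h4 : 0 ≤ ∑ i, z i * ((s + z i - p + 1) ^ n - (s + z i - p) ^ n) := by
      apply sum_mul_mono_nonneg (g0 := (s - p + 1) ^ n - (s - p) ^ n) hz0
      intro i
      have h5 := abs_le.1 (hz i)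
      constructor
      · intro h
        exact pow_sub_mono (by linarith) (by linarith) n
      · intro h
        exact pow_sub_mono (by linarith) (by linarith) n
    have h5 : ∑ i, z i * (s - z i + p) ^ (n - 1) ≤ 0 := by
      have h6 : 0 ≤ ∑ i, z i * (-(s - z i + p) ^ (n - 1)) := by
        apply sum_mul_mono_nonneg (g0 := -(s + p) ^ (n - 1)) hz0
        intro i
        have h5 := abs_le.1 (hz i)
        constructor
        · intro h
          have := pow_le_pow_left₀ (by linarith : 0 ≤ s - z i + p)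
            (by linarith : s - z i + p ≤ s + p) (n - 1)
          linarith
        · intro h
          have := pow_le_pow_left₀ (by linarith : 0 ≤ s + p)
            (by linarith : s + p ≤ s - z i + p) (n - 1)
          linarith
      simp only [mul_neg, Finset.sum_neg_distrib] at h6
      linarith
    have h6 : ∑ i, ((s + z i - p) ^ n + p * ((s + z i - p + 1) ^ n - (s + z i - p) ^ n)) ≤
        Real.exp (8 * (n / s) ^ 2 * p) * ∑ i, (s + z i) ^ n := by
      rw [Finset.mul_sum]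
      apply Finset.sum_le_sum
      intro i _
      have h7 := abs_le.1 (hz i)
      exact scalar_upper (by linarith) (by linarith) hp0 hp1 (by linarith)
    have h7 : ∑ i, ((s - z i + p) ^ n - n * β * (p * (s - z i + p) ^ (n - 1))) ≤
        Real.exp (8 * (n / s) ^ 2 * p) * ∑ i, (s - z i) ^ n := by
      rw [Finset.mul_sum]
      apply Finset.sum_le_sum
      intro i _
      have h7 := abs_le.1 (hz i)
      exact scalar_lower (by linarith) (by linarith) hp0 hp1 hn hn1
    have h8 : (n : ℝ) * β * ∑ i, z i * (s - z i + p) ^ (n - 1) ≤ 0 :=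
      mul_nonpos_of_nonneg_of_nonpos (by positivity) h5
    have h9 := mul_le_mul_of_nonneg_left h6 hNk.le
    have h10 := mul_le_mul_of_nonneg_left h7 hNk.le
    have h12 : ∑ i, ((s + z i) ^ n + (s - z i) ^ n) = ∑ i, (s + z i) ^ n +
        ∑ i, (s - z i) ^ n := Finset.sum_add_distrib
    rw [h12]
    have h11 : (N - k) * (Real.exp (8 * (n / s) ^ 2 * p) * (∑ i, (s + z i) ^ n +
        ∑ i, (s - z i) ^ n)) = (N - k) * (Real.exp (8 * (n / s) ^ 2 * p) * ∑ i, (s + z i) ^ n) +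
        (N - k) * (Real.exp (8 * (n / s) ^ 2 * p) * ∑ i, (s - z i) ^ n) := by ring
    rw [h11]
    linarith
  obtain ⟨ω, hω, hω2⟩ := Finset.exists_le_of_sum_le hne hsum
  exact ⟨ω, (Finset.mem_sdiff.1 hω).2, hω2⟩

end Pool.Agent.Lib.MP_d0f9e0_co.Approx
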