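import Pool.Agent.Lib.MP_d0f9e0_co.Approx.Select
import Pool.Agent.Lib.PrimeGap.Main

/-!
# Flat sets of characters in every large size
-/

set_option autoImplicit false

open Finset Filter

namespace Pool.Agent.Lib.MP_d0f9e0_co.Approx

/-- For every large `d` there are a group with at least `d ^ 2` elements and a set of `d` elements
all of whose nontrivial character sums are close to `√d` in absolute value. -/
theorem exists_flat {η κ : ℝ} (hη0 : 0 < η) (hη1 : η ≤ 1 / 8) (hκ0 : 0 < κ)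
    (hκ : κ ≤ η ^ 2 / 40) : ∃ d0 : ℕ, ∀ d : ℕ, d0 ≤ d →
    ∃ (A : Type) (_ : AddCommGroup A) (_ : Fintype A) (S : Finset A),
      d ^ 2 ≤ Fintype.card A ∧
      (Fintype.card A : ℝ) ≤ d ^ 2 + 4 * κ * d ^ 2 / Real.log d ∧
      S.card = d ∧ ∀ ψ : AddChar A ℂ, ψ ≠ 0 →
        (1 - 4 * η) * Real.sqrt d ≤ ‖∑ x ∈ S, ψ x‖ ∧
        ‖∑ x ∈ S, ψ x‖ ≤ (1 + 4 * η) * Real.sqrt d := by
  have hκη : κ ≤ η / 320 := by nlinarith
  have h1 := (PrimeGap.exists_prime_short hκ0).and
    ((Real.tendsto_log_atTop.eventually_ge_atTop 1).and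
      ((Real.tendsto_log_atTop.eventually_ge_atTop (2 * κ / η)).and
        ((eventually_ge_atTop (100 : ℝ)).and
          (Real.isLittleO_log_id_atTop.bound (by positivity : 0 < κ / 3)))))
  obtain ⟨x0, hx0⟩ := Filter.eventually_atTop.1 h1
  refine ⟨⌈x0⌉₊, fun d hd => ?_⟩
  have hdx : x0 ≤ d := (Nat.le_ceil x0).trans (by exact_mod_cast hd)
  obtain ⟨⟨q, hq, hq1, hq2⟩, hlog1, hlog2, hd100, hlittle⟩ := hx0 d hdx
  have hd0 : (0 : ℝ) < d := by linarith
  have hlog0 : 0 < Real.log d := by linarith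
  rw [Real.norm_of_nonneg hlog0.le, id, Real.norm_of_nonneg hd0.le] at hlittle
  have hdq : d < q := by exact_mod_cast hq1
  have : Fact q.Prime := ⟨hq⟩
  obtain ⟨A, iA, iF, D, hA, hD, hS⟩ := exists_singer q
  obtain ⟨r, hr⟩ : ∃ r, q + 1 = d + r := ⟨q + 1 - d, by omega⟩
  have hrR : (q : ℝ) + 1 = d + r := by exact_mod_cast hr
  -- the size of `r`
  have hr1 : (r : ℝ) ≤ 2 * κ * d / Real.log d := by
    have h2 : 1 ≤ κ * d / Real.log d := by rw [le_div_iff₀ hlog0]; linarith
    have h3 : 2 * κ * d / Real.log d = κ * d / Real.log d + κ * d / Real.log d := by ring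
    linarith
  have hr0 : (0 : ℝ) < r := by linarith
  have hrη : (r : ℝ) ≤ η * d := by
    refine hr1.trans ?_
    rw [div_le_iff₀ hlog0]
    rw [div_le_iff₀ hη0] at hlog2
    nlinarith
  have hq2d : (q : ℝ) ≤ 2 * d := by nlinarith
  obtain ⟨S, hS1, hS2, hS3⟩ := exists_select (A := A) (D := D) (d := d) (r := r) (η := η)
    (by rw [hD, hr]) (by
      have : (0 : ℝ) < d := hd0
      exact_mod_cast this) hη0 (by linarith) (by
      intro _
      have e1 : 5 * Real.log d ≤ η ^ 2 * d / (4 * r) := by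
        rw [le_div_iff₀ (by positivity)]
        have h4 : (r : ℝ) * Real.log d ≤ 2 * κ * d := by rwa [le_div_iff₀ hlog0] at hr1
        have h5 : 5 * Real.log d * (4 * r) = 20 * (r * Real.log d) := by ring
        rw [h5]
        calc 20 * (r * Real.log d) ≤ 20 * (2 * κ * d) := by gcongr
          _ ≤ 20 * (2 * (η ^ 2 / 40) * d) := by gcongr
          _ = η ^ 2 * d := by ring
      have e2 : Real.exp (-(η ^ 2 * d / (4 * r))) ≤ 1 / (d : ℝ) ^ 5 := by
        calc _ ≤ Real.exp (-(5 * Real.log d)) := Real.exp_le_exp.2 (by linarith)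
          _ = 1 / (d : ℝ) ^ 5 := by
            rw [Real.exp_neg, one_div]
            congr 1
            have : (5 : ℝ) * Real.log d = ((5 : ℕ) : ℝ) * Real.log d := by norm_num
            rw [this, Real.exp_nat_mul, Real.exp_log hd0]
      have e3 : 4 * (Fintype.card A : ℝ) + 2 ≤ 30 * (d : ℝ) ^ 2 := by
        rw [hA]; push_cast
        have h6 : (q : ℝ) ^ 2 ≤ (2 * d) ^ 2 := pow_le_pow_left₀ (by positivity) hq2d 2
        nlinarith
      calc _ ≤ 30 * (d : ℝ) ^ 2 * (1 / (d : ℝ) ^ 5) := by gcongr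
        _ = 30 / (d : ℝ) ^ 3 := by field_simp
        _ < 1 := by
          rw [div_lt_one (by positivity)]
          have : (100 : ℝ) ^ 3 ≤ (d : ℝ) ^ 3 := pow_le_pow_left₀ (by norm_num) hd100 3
          linarith)
  refine ⟨A, iA, iF, S, ?_, ?_, hS2, fun ψ hψ => ?_⟩
  · rw [hA]
    have : d ^ 2 ≤ q ^ 2 := Nat.pow_le_pow_left hdq.le 2
    omega
  · rw [hA]
    push_cast
    have h7 : (q : ℝ) ≤ d + κ * d / Real.log d := hq2
    set u := κ * d / Real.log d with hu
    have hu0 : 0 ≤ u := by positivity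
    have hu1 : u ≤ d := by
      rw [hu, div_le_iff₀ hlog0]
      nlinarith
    have h8 : 3 * (d : ℝ) ≤ u * d := by
      rw [hu]
      rw [div_mul_eq_mul_div, le_div_iff₀ hlog0]
      nlinarith
    have h9 : 4 * κ * (d : ℝ) ^ 2 / Real.log d = 4 * (u * d) := by rw [hu]; ring
    rw [h9]
    have h10 : (q : ℝ) ^ 2 ≤ (d + u) ^ 2 := pow_le_pow_left₀ (by positivity) h7 2
    nlinarith
  · obtain ⟨h7, h8⟩ := hS3 ψ
    have h9 : ‖∑ x ∈ D, ψ x‖ = Real.sqrt q := by
      have h10 := norm_sum_sq (A := A) (D := D) (by rw [hA, hD]; simp; ring) hS ψ hψ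
      rw [hD] at h10
      have h11 : ‖∑ x ∈ D, ψ x‖ ^ 2 = q := by rw [h10]; push_cast; ring
      rw [← h11, Real.sqrt_sq (norm_nonneg _)]
    rw [h9] at h7 h8
    have hp : (r : ℝ) / (d + r) ≤ η := by
      rw [div_le_iff₀ (by positivity)]
      have : 0 ≤ η * r := by positivity
      nlinarith
    have hs1 : Real.sqrt d ≤ Real.sqrt q := Real.sqrt_le_sqrt (by exact_mod_cast hdq.le)
    have hs0 : 0 < Real.sqrt d := Real.sqrt_pos.2 hd0
    have hs2 : Real.sqrt q ≤ (1 + η) * Real.sqrt d := by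
      rw [Real.sqrt_le_left (by positivity), mul_pow, Real.sq_sqrt hd0.le]
      nlinarith
    constructor
    · have : (1 - η) * Real.sqrt d ≤ (1 - (r : ℝ) / (d + r)) * Real.sqrt q := by
        apply mul_le_mul _ hs1 hs0.le
        · linarith
        · linarith
      linarith
    · linarith

end Pool.Agent.Lib.MP_d0f9e0_co.Approx
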