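import Mathlib

/-!
# Character sums over planar difference sets
-/

set_option autoImplicit false

open Finset

namespace Pool.Agent.Lib.MP_d0f9e0_co.Approx

/-- the differences of distinct elements of `D` are distinct -/
def IsSidon {A : Type*} [AddCommGroup A] (D : Finset A) : Prop :=
  ∀ a ∈ D, ∀ b ∈ D, ∀ c ∈ D, ∀ e ∈ D, a - b = c - e → a ≠ b → a = c ∧ b = e

theorem norm_sum_sq {A : Type*} [AddCommGroup A] [Fintype A] {D : Finset A}
    (hcard : Fintype.card A = D.card * (D.card - 1) + 1) (hS : IsSidon D) (ψ : AddChar A ℂ)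
    (hψ : ψ ≠ 0) : ‖∑ a ∈ D, ψ a‖ ^ 2 = (D.card : ℝ) - 1 := by
  classical
  -- the differences are all nonzero elements
  have himg : D.offDiag.image (fun p => p.1 - p.2) = univ.erase 0 := by
    apply Finset.eq_of_subset_of_card_le
    · intro x hx
      rw [Finset.mem_image] at hx
      obtain ⟨⟨a, b⟩, hp, rfl⟩ := hx
      rw [Finset.mem_offDiag] at hp
      rw [Finset.mem_erase]
      exact ⟨sub_ne_zero.2 hp.2.2, Finset.mem_univ _⟩
    · rw [Finset.card_image_of_injOn, Finset.card_erase_of_mem (Finset.mem_univ _),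
        Finset.card_univ, hcard, Finset.offDiag_card]
      · rcases Nat.eq_zero_or_pos D.card with h | h
        · rw [h]
        · obtain ⟨k, hk⟩ : ∃ k, D.card = k + 1 := ⟨D.card - 1, by omega⟩
          rw [hk]
          simp
          ring_nf
          omega
      · rintro ⟨a, b⟩ hp ⟨c, e⟩ hq h
        simp only [Finset.coe_offDiag, Set.mem_offDiag, Finset.mem_coe] at hp hq
        obtain ⟨h1, h2⟩ := hS a hp.1 b hp.2.1 c hq.1 e hq.2.1 h hp.2.2
        rw [h1, h2]
  have hinj : Set.InjOn (fun p : A × A => p.1 - p.2) D.offDiag := by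
    rintro ⟨a, b⟩ hp ⟨c, e⟩ hq h
    simp only [Finset.coe_offDiag, Set.mem_offDiag, Finset.mem_coe] at hp hq
    obtain ⟨h1, h2⟩ := hS a hp.1 b hp.2.1 c hq.1 e hq.2.1 h hp.2.2
    rw [h1, h2]
  have h1 : (∑ a ∈ D, ψ a) * (starRingEnd ℂ) (∑ a ∈ D, ψ a) =
      ∑ p ∈ D ×ˢ D, ψ (p.1 - p.2) := by
    rw [map_sum, Finset.sum_mul_sum, Finset.sum_product]
    apply Finset.sum_congr rfl
    intro a _
    apply Finset.sum_congr rfl
    intro b _
    rw [sub_eq_add_neg, AddChar.map_add_eq_mul, AddChar.map_neg_eq_conj]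
  have h2 : ∑ p ∈ D ×ˢ D, ψ (p.1 - p.2) = (D.card : ℂ) - 1 := by
    rw [← Finset.diag_union_offDiag, Finset.sum_union (Finset.disjoint_diag_offDiag D),
      Finset.sum_diag]
    have h3 : ∑ a ∈ D, ψ (a - a) = (D.card : ℂ) := by simp
    have h4 : ∑ p ∈ D.offDiag, ψ (p.1 - p.2) = -1 := by
      rw [← Finset.sum_image (f := fun x => ψ x) (g := fun p : A × A => p.1 - p.2) hinj, himg]
      have h5 := AddChar.sum_eq_zero_iff_ne_zero.2 hψ
      rw [← Finset.add_sum_erase univ (fun x => ψ x) (Finset.mem_univ 0)] at h5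
      rw [AddChar.map_zero_eq_one] at h5
      linear_combination h5
    simp only at h3 h4 ⊢
    rw [h3, h4]
    ring
  rw [h2, Complex.mul_conj, Complex.normSq_eq_norm_sq] at h1
  have h3 : ((‖∑ a ∈ D, ψ a‖ ^ 2 : ℝ) : ℂ) = (((D.card : ℝ) - 1 : ℝ) : ℂ) := by
    rw [h1]; push_cast; rfl
  exact_mod_cast h3

end Pool.Agent.Lib.MP_d0f9e0_co.Approx
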