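import Mathlib

/-!
# Making a nearly tight frame tight
-/

set_option autoImplicit false

open Finset
open scoped InnerProductSpace

namespace Pool.Agent.Lib.MP_d0f9e0_co.Approx

set_option linter.unusedSectionVars false

variable {E : Type*} [NormedAddCommGroup E] [InnerProductSpace ℂ E] [FiniteDimensional ℂ E]

/-- the frame operator has an orthonormal eigenbasis -/
theorem exists_eigenbasis {ι : Type*} [Fintype ι] (x : ι → E) :
    ∃ (b : OrthonormalBasis (Fin (Module.finrank ℂ E)) ℂ E) (f : Fin (Module.finrank ℂ E) → ℝ),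
      ∀ w : E, ∑ i, ‖⟪x i, w⟫_ℂ‖ ^ 2 = ∑ k, f k * ‖⟪b k, w⟫_ℂ‖ ^ 2 := by
  classical
  let T : E →ₗ[ℂ] E := ∑ i, ((innerSL ℂ (x i) : E →L[ℂ] ℂ) : E →ₗ[ℂ] ℂ).smulRight (x i)
  have hTa : ∀ v, T v = ∑ i, ⟪x i, v⟫_ℂ • x i := by
    intro v
    simp only [T, LinearMap.sum_apply, LinearMap.smulRight_apply]
    rfl
  have hT : T.IsSymmetric := by
    intro v w
    rw [hTa, hTa, sum_inner, inner_sum]
    apply Finset.sum_congr rfl
    intro i _
    rw [inner_smul_left, inner_smul_right, inner_conj_symm]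
    ring
  refine ⟨hT.eigenvectorBasis rfl, hT.eigenvalues rfl, fun w => ?_⟩
  set b := hT.eigenvectorBasis rfl
  have h1 : ((∑ i, ‖⟪x i, w⟫_ℂ‖ ^ 2 : ℝ) : ℂ) = ⟪w, T w⟫_ℂ := by
    rw [hTa, inner_sum]
    push_cast
    apply Finset.sum_congr rfl
    intro i _
    rw [inner_smul_right, ← inner_conj_symm w (x i), Complex.mul_conj']
  have h2 : ⟪w, T w⟫_ℂ = ((∑ k, hT.eigenvalues rfl k * ‖⟪b k, w⟫_ℂ‖ ^ 2 : ℝ) : ℂ) := by
    rw [← OrthonormalBasis.sum_inner_mul_inner b w (T w)]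
    push_cast
    apply Finset.sum_congr rfl
    intro k _
    rw [← hT (b k) w, hT.apply_eigenvectorBasis rfl k, inner_smul_left, RCLike.conj_ofReal,
      ← Complex.conj_mul', ← inner_conj_symm (𝕜 := ℂ) w (b k), mul_comm, mul_assoc]
    congr 1
    rw [mul_comm]
  rw [h2] at h1
  exact_mod_cast h1

/-- the operator with prescribed eigenvalues -/
noncomputable def dg {n : ℕ} (b : OrthonormalBasis (Fin n) ℂ E) (β : Fin n → ℝ) : E →L[ℂ] E :=
  ∑ k, ((β k : ℂ)) • (innerSL ℂ (b k) : E →L[ℂ] ℂ).smulRight (b k)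

theorem dg_apply {n : ℕ} (b : OrthonormalBasis (Fin n) ℂ E) (β : Fin n → ℝ) (v : E) :
    dg b β v = ∑ k, ((β k : ℂ) * ⟪b k, v⟫_ℂ) • b k := by
  simp only [dg, _root_.sum_apply, _root_.smul_apply,
    ContinuousLinearMap.smulRight_apply, innerSL_apply_apply, smul_smul]

theorem inner_dg {n : ℕ} (b : OrthonormalBasis (Fin n) ℂ E) (β : Fin n → ℝ) (v : E)
    (l : Fin n) : ⟪b l, dg b β v⟫_ℂ = β l * ⟪b l, v⟫_ℂ := by
  classical
  rw [dg_apply, inner_sum]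
  simp only [inner_smul_right, orthonormal_iff_ite.1 b.orthonormal, mul_ite, mul_one, mul_zero]
  rw [Finset.sum_ite_eq]
  simp

theorem dg_symm {n : ℕ} (b : OrthonormalBasis (Fin n) ℂ E) (β : Fin n → ℝ) (v w : E) :
    ⟪dg b β v, w⟫_ℂ = ⟪v, dg b β w⟫_ℂ := by
  rw [← b.sum_inner_mul_inner, ← b.sum_inner_mul_inner]
  apply Finset.sum_congr rfl
  intro k _
  rw [inner_dg, ← inner_conj_symm, inner_dg, map_mul, Complex.conj_ofReal, inner_conj_symm]
  ring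

theorem norm_dg_sq {n : ℕ} (b : OrthonormalBasis (Fin n) ℂ E) (β : Fin n → ℝ) (v : E) :
    ‖dg b β v‖ ^ 2 = ∑ k, β k ^ 2 * ‖⟪b k, v⟫_ℂ‖ ^ 2 := by
  rw [← b.sum_sq_norm_inner_right]
  apply Finset.sum_congr rfl
  intro k _
  rw [inner_dg, norm_mul, Complex.norm_real, Real.norm_eq_abs, mul_pow, sq_abs]

theorem dg_sub_one {n : ℕ} (b : OrthonormalBasis (Fin n) ℂ E) (β : Fin n → ℝ) (v : E) :
    (dg b β - 1) v = dg b (fun k => β k - 1) v := by
  have h1 : (dg b β - 1) v = dg b β v - v := rfl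
  rw [h1, dg_apply, dg_apply]
  nth_rewrite 2 [← b.sum_repr' v]
  rw [← Finset.sum_sub_distrib]
  apply Finset.sum_congr rfl
  intro k _
  rw [← sub_smul]
  push_cast
  congr 1
  ring

theorem scal_bounds {g : ℝ} {γ : ℝ} (hg : |g| ≤ γ) (hγ : γ ≤ 1 / 4) :
    |1 / Real.sqrt (1 - g) - 1| ≤ γ ∧ |1 / (1 - g) - 1 - g| ≤ 2 * γ ^ 2 := by
  have hg1 := (abs_le.1 hg).1
  have hg2 := (abs_le.1 hg).2
  have h0 : 0 < 1 - g := by linarith
  have hs := Real.sqrt_pos.2 h0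
  have hγ0 : 0 ≤ γ := (abs_nonneg g).trans hg
  constructor
  · rw [abs_le]
    constructor
    · have h1 : 1 - γ ≤ 1 / Real.sqrt (1 - g) := by
        rw [le_div_iff₀ hs]
        have h2 : Real.sqrt (1 - g) ≤ 1 + γ := by
          rw [Real.sqrt_le_left (by linarith)]
          nlinarith
        nlinarith
      linarith
    · have h1 : 1 / Real.sqrt (1 - g) ≤ 1 + γ := by
        rw [div_le_iff₀ hs]
        have h2 : 1 / (1 + γ) ≤ Real.sqrt (1 - g) := by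
          apply Real.le_sqrt_of_sq_le
          rw [div_pow, one_pow, div_le_iff₀ (by positivity)]
          have h3 : 1 ≤ (1 - γ) * (1 + γ) ^ 2 := by nlinarith [mul_nonneg hγ0 hγ0]
          refine h3.trans ?_
          gcongr
        rw [div_le_iff₀ (by linarith)] at h2
        linarith
      linarith
  · have h1 : 1 / (1 - g) - 1 - g = g ^ 2 / (1 - g) := by field_simp; ring
    rw [h1, abs_of_nonneg (by positivity), div_le_iff₀ h0]
    have h2 : g ^ 2 ≤ γ ^ 2 := by rw [← sq_abs g]; gcongr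
    nlinarith [sq_nonneg γ]

theorem exists_scale {ι : Type*} [Fintype ι] (x : ι → E) {D γ : ℝ} (hD : 0 < D) (hγ0 : 0 ≤ γ)
    (hγ : γ ≤ 1 / 4)
    (h : ∀ v : E, |∑ i, ‖⟪x i, v⟫_ℂ‖ ^ 2 - D * ‖v‖ ^ 2| ≤ D * γ * ‖v‖ ^ 2) :
    ∃ B : E →L[ℂ] E, ‖B - 1‖ ≤ γ ∧ (∀ v : E, ∑ i, ‖⟪B (x i), v⟫_ℂ‖ ^ 2 = D * ‖v‖ ^ 2) ∧
      ∀ v, |‖B v‖ ^ 2 - 2 * ‖v‖ ^ 2 + (1 / D) * ∑ i, ‖⟪x i, v⟫_ℂ‖ ^ 2| ≤
        2 * γ ^ 2 * ‖v‖ ^ 2 := by
  obtain ⟨b, f, hf⟩ := exists_eigenbasis x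
  have hb : ∀ k l, ‖⟪b k, b l⟫_ℂ‖ ^ 2 = if k = l then 1 else 0 := by
    intro k l
    rw [orthonormal_iff_ite.1 b.orthonormal]
    split_ifs <;> simp
  have hfk : ∀ k, |1 - f k / D| ≤ γ := by
    intro k
    have h1 := h (b k)
    rw [hf (b k)] at h1
    simp only [hb] at h1
    have h2 : ‖b k‖ = 1 := b.orthonormal.1 k
    rw [h2] at h1
    simp only [mul_ite, mul_one, mul_zero, Finset.sum_ite_eq', Finset.mem_univ, if_true,
      one_pow] at h1
    have h3 : 1 - f k / D = -((f k - D) / D) := by field_simp; ring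
    rw [h3, abs_neg, abs_div, abs_of_pos hD, div_le_iff₀ hD]
    linarith
  set g : Fin (Module.finrank ℂ E) → ℝ := fun k => 1 - f k / D with hg
  have hfg : ∀ k, f k = D * (1 - g k) := by intro k; rw [hg]; field_simp; ring
  set β : Fin (Module.finrank ℂ E) → ℝ := fun k => 1 / Real.sqrt (1 - g k) with hβ
  have hg0 : ∀ k, 0 < 1 - g k := fun k => by
    have := (abs_le.1 (hfk k)).2
    change g k ≤ γ at this
    linarith
  have hβ2 : ∀ k, β k ^ 2 = 1 / (1 - g k) := by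
    intro k
    rw [hβ]
    simp only
    rw [div_pow, one_pow, Real.sq_sqrt (hg0 k).le]
  refine ⟨dg b β, ?_, ?_, ?_⟩
  · apply ContinuousLinearMap.opNorm_le_bound _ hγ0
    intro v
    rw [dg_sub_one]
    have h1 : ‖dg b (fun k => β k - 1) v‖ ^ 2 ≤ (γ * ‖v‖) ^ 2 := by
      rw [norm_dg_sq, mul_pow, ← b.sum_sq_norm_inner_right v, Finset.mul_sum]
      apply Finset.sum_le_sum
      intro k _
      apply mul_le_mul_of_nonneg_right _ (by positivity)
      rw [← sq_abs]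
      have := (scal_bounds (hfk k) hγ).1
      exact pow_le_pow_left₀ (abs_nonneg _) this 2
    exact le_of_sq_le_sq h1 (by positivity)
  · intro v
    have h1 : ∀ i, ‖⟪dg b β (x i), v⟫_ℂ‖ ^ 2 = ‖⟪x i, dg b β v⟫_ℂ‖ ^ 2 := by
      intro i
      rw [dg_symm]
    rw [Finset.sum_congr rfl (fun i _ => h1 i), hf, ← b.sum_sq_norm_inner_right v,
      Finset.mul_sum]
    apply Finset.sum_congr rfl
    intro k _
    rw [inner_dg, norm_mul, Complex.norm_real, Real.norm_eq_abs, mul_pow, sq_abs, hβ2, hfg]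
    have := (hg0 k).ne'
    field_simp
  · intro v
    rw [norm_dg_sq, hf, ← b.sum_sq_norm_inner_right v, Finset.mul_sum, Finset.mul_sum,
      Finset.mul_sum, ← Finset.sum_sub_distrib, ← Finset.sum_add_distrib]
    refine (Finset.abs_sum_le_sum_abs _ _).trans ?_
    apply Finset.sum_le_sum
    intro k _
    have e : β k ^ 2 * ‖⟪b k, v⟫_ℂ‖ ^ 2 - 2 * ‖⟪b k, v⟫_ℂ‖ ^ 2 + 1 / D * (f k * ‖⟪b k, v⟫_ℂ‖ ^ 2) =
        (1 / (1 - g k) - 1 - g k) * ‖⟪b k, v⟫_ℂ‖ ^ 2 := by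
      rw [hβ2, hfg]
      have := (hg0 k).ne'
      field_simp
      ring
    rw [e, abs_mul, abs_of_nonneg (by positivity : (0 : ℝ) ≤ ‖⟪b k, v⟫_ℂ‖ ^ 2)]
    exact mul_le_mul_of_nonneg_right (scal_bounds (hfk k) hγ).2 (by positivity)

end Pool.Agent.Lib.MP_d0f9e0_co.Approx
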