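import Pool.Agent.Lib.MP_d0f9e0_co.Approx.Singer
import Pool.Agent.Lib.MP_d0f9e0_co.Approx.Deletion

/-!
# Subsets of difference sets with flat character sums
-/

set_option autoImplicit false

open Finset

namespace Pool.Agent.Lib.MP_d0f9e0_co.Approx

/-- the test functions -/
noncomputable def tf {A : Type} [AddCommGroup A] :
    (AddChar A ℂ × Fin 4) ⊕ Fin 2 → A → ℝ
  | Sum.inl (ψ, 0), x => (ψ x).re
  | Sum.inl (ψ, 1), x => -(ψ x).re
  | Sum.inl (ψ, 2), x => (ψ x).im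
  | Sum.inl (ψ, 3), x => -(ψ x).im
  | Sum.inr 0, _ => 1
  | Sum.inr 1, _ => -1

theorem tf_abs_le {A : Type} [AddCommGroup A] [Finite A]
    (j : (AddChar A ℂ × Fin 4) ⊕ Fin 2) (x : A) : |tf j x| ≤ 1 := by
  rcases j with ⟨ψ, k⟩ | k
  · have h1 : |(ψ x).re| ≤ 1 := by
      have := Complex.abs_re_le_norm (ψ x)
      rwa [AddChar.norm_apply] at this
    have h2 : |(ψ x).im| ≤ 1 := by
      have := Complex.abs_im_le_norm (ψ x)
      rwa [AddChar.norm_apply] at this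
    fin_cases k <;> simp only [tf, abs_neg] <;> assumption
  · fin_cases k <;> simp [tf]

/-- moving from `T` to a set of prescribed size -/
theorem exists_resize {A : Type} [AddCommGroup A] [Finite A] {D T : Finset A} (hT : T ⊆ D)
    {r : ℕ} (hr : r ≤ D.card) : ∃ R ⊆ D, R.card = r ∧ ∀ ψ : AddChar A ℂ,
      ‖∑ x ∈ R, ψ x - ∑ x ∈ T, ψ x‖ ≤ |(T.card : ℝ) - r| := by
  classical
  rcases le_total r T.card with h | h
  · obtain ⟨R, hR1, hR2⟩ := Finset.exists_subset_card_eq h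
    refine ⟨R, hR1.trans hT, hR2, fun ψ => ?_⟩
    rw [← Finset.sum_sdiff hR1, norm_sub_rev]
    have e : ∑ x ∈ T \ R, ψ x + ∑ x ∈ R, ψ x - ∑ x ∈ R, ψ x = ∑ x ∈ T \ R, ψ x := by ring
    rw [e]
    refine (norm_sum_le _ _).trans ?_
    simp only [AddChar.norm_apply, Finset.sum_const, nsmul_eq_mul, mul_one]
    rw [Finset.card_sdiff_of_subset hR1, hR2, Nat.cast_sub h]
    exact le_abs_self _
  · obtain ⟨R, hR1, hR2, hR3⟩ := Finset.exists_subsuperset_card_eq hT h hr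
    refine ⟨R, hR2, hR3, fun ψ => ?_⟩
    rw [← Finset.sum_sdiff hR1]
    have e : ∑ x ∈ R \ T, ψ x + ∑ x ∈ T, ψ x - ∑ x ∈ T, ψ x = ∑ x ∈ R \ T, ψ x := by ring
    rw [e]
    refine (norm_sum_le _ _).trans ?_
    simp only [AddChar.norm_apply, Finset.sum_const, nsmul_eq_mul, mul_one]
    rw [Finset.card_sdiff_of_subset hR1, hR3, Nat.cast_sub h, abs_sub_comm]
    exact le_abs_self _

theorem exists_select {A : Type} [AddCommGroup A] [Fintype A] {D : Finset A} {d r : ℕ}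
    (hD : D.card = d + r) (hd : 1 ≤ d) {η : ℝ} (hη0 : 0 < η) (hη1 : η ≤ 1)
    (h : η * Real.sqrt d < r →
      (4 * (Fintype.card A : ℝ) + 2) * Real.exp (-(η ^ 2 * d / (4 * r))) < 1) :
    ∃ S ⊆ D, S.card = d ∧ ∀ ψ : AddChar A ℂ,
      (1 - (r : ℝ) / (d + r)) * ‖∑ x ∈ D, ψ x‖ - 3 * (η * Real.sqrt d) ≤ ‖∑ x ∈ S, ψ x‖ ∧
      ‖∑ x ∈ S, ψ x‖ ≤ ‖∑ x ∈ D, ψ x‖ + 3 * (η * Real.sqrt d) := by
  classical
  have hd0 : (0 : ℝ) < d := by exact_mod_cast hd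
  set t := η * Real.sqrt d with ht
  have ht0 : 0 < t := mul_pos hη0 (Real.sqrt_pos.2 hd0)
  set p : ℝ := (r : ℝ) / (d + r) with hp
  have hp0 : 0 ≤ p := by positivity
  have hp1 : p ≤ 1 := by
    rw [hp, div_le_one (by positivity)]
    linarith
  rcases le_or_gt (r : ℝ) t with hcase | hcase
  · -- few deletions
    obtain ⟨S, hS1, hS2⟩ := Finset.exists_subset_card_eq (s := D) (n := d) (by omega)
    refine ⟨S, hS1, hS2, fun ψ => ?_⟩
    have h1 : ‖∑ x ∈ D \ S, ψ x‖ ≤ r := by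
      refine (norm_sum_le _ _).trans ?_
      simp only [AddChar.norm_apply, Finset.sum_const, nsmul_eq_mul, mul_one]
      rw [Finset.card_sdiff_of_subset hS1, hS2, hD, Nat.add_sub_cancel_left]
    have h2 : ∑ x ∈ D, ψ x = ∑ x ∈ D \ S, ψ x + ∑ x ∈ S, ψ x := (Finset.sum_sdiff hS1).symm
    have h3 : ‖∑ x ∈ D, ψ x‖ ≤ ‖∑ x ∈ D \ S, ψ x‖ + ‖∑ x ∈ S, ψ x‖ := by
      rw [h2]; exact norm_add_le _ _
    have h4 : ‖∑ x ∈ S, ψ x‖ ≤ ‖∑ x ∈ D, ψ x‖ + ‖∑ x ∈ D \ S, ψ x‖ := by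
      have : ∑ x ∈ S, ψ x = ∑ x ∈ D, ψ x - ∑ x ∈ D \ S, ψ x := by rw [h2]; ring
      rw [this]; exact norm_sub_le _ _
    have h5 : (1 - p) * ‖∑ x ∈ D, ψ x‖ ≤ ‖∑ x ∈ D, ψ x‖ := by
      have := mul_nonneg hp0 (norm_nonneg (∑ x ∈ D, ψ x))
      linarith
    constructor <;> linarith
  · -- many deletions
    have hr0 : (0 : ℝ) < r := ht0.trans hcase
    have hcardJ : (Fintype.card ((AddChar A ℂ × Fin 4) ⊕ Fin 2) : ℝ) =
        4 * (Fintype.card A : ℝ) + 2 := by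
      rw [Fintype.card_sum, Fintype.card_prod, AddChar.card_eq, Fintype.card_fin, Fintype.card_fin]
      push_cast
      ring
    have hpD : p * D.card = r := by
      rw [hp, hD]
      push_cast
      field_simp
    obtain ⟨T, hT, hT2⟩ := deletion D (tf (A := A)) tf_abs_le (p := p) (θ := t / (2 * r)) (t := t)
      hp0 hp1 (by positivity) (by rw [div_le_one (by positivity)]; linarith) (by
        rw [hcardJ, hpD]
        have e : (r : ℝ) * (t / (2 * r)) ^ 2 - t / (2 * r) * t = -(η ^ 2 * d / (4 * r)) := by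
          have : t ^ 2 = η ^ 2 * d := by
            rw [ht, mul_pow, Real.sq_sqrt hd0.le]
          rw [← this]
          field_simp
          ring
        rw [e]
        exact h hcase)
    have hsize : |(T.card : ℝ) - r| ≤ t := by
      have h1 := hT2 (Sum.inr 0)
      have h2 := hT2 (Sum.inr 1)
      simp only [tf, Finset.sum_const, nsmul_eq_mul, mul_one] at h1 h2
      rw [hpD] at h1
      have h3 : p * ((D.card : ℝ) * -1) = -r := by rw [← hpD]; ring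
      rw [h3] at h2
      rw [abs_le]
      constructor <;> linarith
    obtain ⟨R, hR1, hR2, hR3⟩ := exists_resize hT (r := r) (by omega)
    refine ⟨D \ R, Finset.sdiff_subset, by rw [Finset.card_sdiff_of_subset hR1, hR2, hD]; omega,
      fun ψ => ?_⟩
    have hTψ : ‖∑ x ∈ T, ψ x - p * ∑ x ∈ D, ψ x‖ ≤ 2 * t := by
      have h0 := hT2 (Sum.inl (ψ, 0))
      have h1 := hT2 (Sum.inl (ψ, 1))
      have h2 := hT2 (Sum.inl (ψ, 2))
      have h3 := hT2 (Sum.inl (ψ, 3))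
      simp only [tf, Finset.sum_neg_distrib] at h0 h1 h2 h3
      have hre : (∑ x ∈ T, ψ x - p * ∑ x ∈ D, ψ x).re =
          ∑ x ∈ T, (ψ x).re - p * ∑ x ∈ D, (ψ x).re := by
        rw [Complex.sub_re, Complex.re_ofReal_mul, Complex.re_sum, Complex.re_sum]
      have him : (∑ x ∈ T, ψ x - p * ∑ x ∈ D, ψ x).im =
          ∑ x ∈ T, (ψ x).im - p * ∑ x ∈ D, (ψ x).im := by
        rw [Complex.sub_im, Complex.im_ofReal_mul, Complex.im_sum, Complex.im_sum]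
      refine (Complex.norm_le_abs_re_add_abs_im _).trans ?_
      rw [hre, him]
      have h4 : |∑ x ∈ T, (ψ x).re - p * ∑ x ∈ D, (ψ x).re| ≤ t := by
        rw [abs_le]; constructor <;> linarith
      have h5 : |∑ x ∈ T, (ψ x).im - p * ∑ x ∈ D, (ψ x).im| ≤ t := by
        rw [abs_le]; constructor <;> linarith
      linarith
    have hRψ : ‖∑ x ∈ R, ψ x - p * ∑ x ∈ D, ψ x‖ ≤ 3 * t := by
      have e : ∑ x ∈ R, ψ x - p * ∑ x ∈ D, ψ x = (∑ x ∈ R, ψ x - ∑ x ∈ T, ψ x) +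
          (∑ x ∈ T, ψ x - p * ∑ x ∈ D, ψ x) := by ring
      rw [e]
      have := norm_add_le (∑ x ∈ R, ψ x - ∑ x ∈ T, ψ x) (∑ x ∈ T, ψ x - p * ∑ x ∈ D, ψ x)
      have := hR3 ψ
      linarith
    have hS : ∑ x ∈ D \ R, ψ x = ((1 - p : ℝ) : ℂ) * ∑ x ∈ D, ψ x -
        (∑ x ∈ R, ψ x - p * ∑ x ∈ D, ψ x) := by
      have : ∑ x ∈ D, ψ x = ∑ x ∈ D \ R, ψ x + ∑ x ∈ R, ψ x := (Finset.sum_sdiff hR1).symm
      push_cast
      linear_combination -this
    have hn : ‖((1 - p : ℝ) : ℂ) * ∑ x ∈ D, ψ x‖ = (1 - p) * ‖∑ x ∈ D, ψ x‖ := by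
      rw [norm_mul, Complex.norm_real, Real.norm_eq_abs, abs_of_nonneg (by linarith)]
    have h6 : (1 - p) * ‖∑ x ∈ D, ψ x‖ ≤ ‖∑ x ∈ D, ψ x‖ := by
      have := mul_nonneg hp0 (norm_nonneg (∑ x ∈ D, ψ x))
      linarith
    constructor
    · have h7 : ‖((1 - p : ℝ) : ℂ) * ∑ x ∈ D, ψ x‖ ≤ ‖∑ x ∈ D \ R, ψ x‖ +
          ‖∑ x ∈ R, ψ x - p * ∑ x ∈ D, ψ x‖ := by
        have e : ((1 - p : ℝ) : ℂ) * ∑ x ∈ D, ψ x = ∑ x ∈ D \ R, ψ x +
          (∑ x ∈ R, ψ x - p * ∑ x ∈ D, ψ x) := by rw [hS]; ring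
        rw [e]
        exact norm_add_le _ _
      rw [hn] at h7
      linarith
    · rw [hS]
      have h8 := norm_sub_le (((1 - p : ℝ) : ℂ) * ∑ x ∈ D, ψ x)
        (∑ x ∈ R, ψ x - p * ∑ x ∈ D, ψ x)
      rw [hn] at h8
      linarith

end Pool.Agent.Lib.MP_d0f9e0_co.Approx
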