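import Pool.Agent.Lib.MP_d0f9e0_co.Approx.Planar

/-!
# Singer difference sets
-/

set_option autoImplicit false

open Finset Polynomial

namespace Pool.Agent.Lib.MP_d0f9e0_co.Approx

section

variable {F : Type} [Field F]

/-- the monic polynomials of degree at most one -/
noncomputable def mP : Option F → F[X]
  | none => 1
  | some a => X + C a

theorem mP_monic (o : Option F) : (mP o).Monic := by
  cases o with
  | none => exact monic_one
  | some a => exact monic_X_add_C a

theorem mP_natDegree_le (o : Option F) : (mP o).natDegree ≤ 1 := by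
  cases o with
  | none => simp [mP]
  | some a => simp [mP]

theorem mP_eval (o : Option F) (a : F) : (mP o).eval (-a) = 0 ↔ o = some a := by
  cases o with
  | none => simp [mP]
  | some b =>
    simp only [mP, eval_add, eval_X, eval_C, Option.some.injEq]
    constructor
    · intro h; linear_combination h
    · rintro rfl; ring

theorem mP_injective : Function.Injective (mP (F := F)) := by
  intro o o' h
  cases o with
  | none =>
    cases o' with
    | none => rfl
    | some b =>
      have h1 := congrArg (eval (-b)) h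
      rw [(mP_eval (some b) b).2 rfl] at h1
      simp [mP] at h1
  | some a =>
    have h1 := congrArg (eval (-a)) h
    rw [(mP_eval (some a) a).2 rfl] at h1
    exact ((mP_eval o' a).1 h1.symm).symm

/-- unique factorisation -/
theorem mP_mul {o1 o2 o3 o4 : Option F} (h : mP o1 * mP o4 = mP o3 * mP o2) (hne : o1 ≠ o2) :
    o1 = o3 ∧ o2 = o4 := by
  have h13 : o1 = o3 → o1 = o3 ∧ o2 = o4 := by
    rintro rfl
    refine ⟨rfl, ?_⟩
    have := mul_left_cancel₀ (mP_monic o1).ne_zero h
    exact (mP_injective this).symm
  cases o1 with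
  | some a =>
    have h1 := congrArg (eval (-a)) h
    rw [eval_mul, eval_mul, (mP_eval (some a) a).2 rfl, zero_mul] at h1
    rcases mul_eq_zero.1 h1.symm with h2 | h2
    · exact h13 ((mP_eval o3 a).1 h2).symm
    · exact absurd ((mP_eval o2 a).1 h2).symm hne
  | none =>
    cases o2 with
    | none => exact absurd rfl hne
    | some b =>
      have h1 := congrArg (eval (-b)) h
      rw [eval_mul, eval_mul, (mP_eval (some b) b).2 rfl, mul_zero] at h1
      have h2 : eval (-b) (mP (none : Option F)) = 1 := by simp [mP]
      rw [h2, one_mul] at h1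
      have h3 := (mP_eval o4 b).1 h1
      subst h3
      refine ⟨?_, rfl⟩
      have := mul_right_cancel₀ (mP_monic (some b)).ne_zero h
      exact mP_injective this

end

theorem exists_singer (q : ℕ) [hq : Fact q.Prime] :
    ∃ (A : Type) (_ : AddCommGroup A) (_ : Fintype A) (D : Finset A),
      Fintype.card A = q ^ 2 + q + 1 ∧ D.card = q + 1 ∧ IsSidon D := by
  classical
  let F := ZMod q
  let K := GaloisField q 3
  have hfin : Module.finrank F K = 3 := GaloisField.finrank q (by norm_num)
  have hfinite : Finite K := Module.finite_of_finite F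
  obtain ⟨θ, hθ⟩ := Field.exists_primitive_element F K
  have hdeg : (minpoly F θ).natDegree = 3 := by
    rw [(Field.primitive_element_iff_minpoly_natDegree_eq F θ).1 hθ, hfin]
  have hzero : ∀ p : F[X], p.natDegree ≤ 2 → aeval θ p = 0 → p = 0 := by
    intro p hp h
    by_contra hne
    have h1 := natDegree_le_natDegree (minpoly.degree_le_of_ne_zero F θ hne h)
    omega
  have hne : ∀ o : Option F, aeval θ (mP o) ≠ 0 := by
    intro o h
    have h1 := hzero (mP o) ((mP_natDegree_le o).trans (by norm_num)) h
    exact (mP_monic o).ne_zero h1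
  let u : Option F → Kˣ := fun o => Units.mk0 (aeval θ (mP o)) (hne o)
  let i : Fˣ →* Kˣ := Units.map (algebraMap F K : F →* K)
  let S : Subgroup Kˣ := i.range
  -- equality of classes
  have key : ∀ o1 o2 o3 o4 : Option F,
      (QuotientGroup.mk (u o1 * u o4) : Kˣ ⧸ S) = QuotientGroup.mk (u o3 * u o2) →
      mP o1 * mP o4 = mP o3 * mP o2 := by
    intro o1 o2 o3 o4 h
    rw [QuotientGroup.eq] at h
    obtain ⟨t, ht⟩ := h
    have h1 : u o1 * u o4 * i t = u o3 * u o2 := by
      rw [ht]; group
    have h2 : aeval θ (mP o1) * aeval θ (mP o4) * algebraMap F K t =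
        aeval θ (mP o3) * aeval θ (mP o2) := by
      have := congrArg Units.val h1
      simpa [u, i] using this
    have h3 : aeval θ (mP o1 * mP o4 * C (t : F) - mP o3 * mP o2) = 0 := by
      rw [map_sub, map_mul, map_mul, map_mul, aeval_C]
      rw [h2, sub_self]
    have hdeg2 : ∀ o o' : Option F, (mP o * mP o').natDegree ≤ 2 := by
      intro o o'
      have h4 := natDegree_mul_le (p := mP o) (q := mP o')
      have h5 := mP_natDegree_le o
      have h6 := mP_natDegree_le o'
      omega
    have h4 : mP o1 * mP o4 * C (t : F) - mP o3 * mP o2 = 0 := by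
      apply hzero _ _ h3
      refine (natDegree_sub_le _ _).trans (max_le ?_ (hdeg2 _ _))
      exact (natDegree_mul_C_le _ _).trans (hdeg2 _ _)
    have h5 : mP o1 * mP o4 * C (t : F) = mP o3 * mP o2 := sub_eq_zero.1 h4
    have h6 : (t : F) = 1 := by
      have h7 := congrArg leadingCoeff h5
      rw [leadingCoeff_mul, leadingCoeff_mul, leadingCoeff_mul, leadingCoeff_C,
        (mP_monic o1).leadingCoeff, (mP_monic o2).leadingCoeff, (mP_monic o3).leadingCoeff,
        (mP_monic o4).leadingCoeff] at h7
      simpa using h7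
    rw [h6, C_1, mul_one] at h5
    exact h5
  let f : Option F → Additive (Kˣ ⧸ S) := fun o => Additive.ofMul (QuotientGroup.mk (u o))
  have hf : Function.Injective f := by
    intro o o' h
    have h1 : (QuotientGroup.mk (u o * u none) : Kˣ ⧸ S) = QuotientGroup.mk (u o' * u none) := by
      have h2 : (QuotientGroup.mk (u o) : Kˣ ⧸ S) = QuotientGroup.mk (u o') := h
      rw [QuotientGroup.mk_mul, QuotientGroup.mk_mul, h2]
    have h3 := key o none o' none h1
    exact mP_injective (mul_right_cancel₀ (mP_monic none).ne_zero h3)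
  have : Fintype (Additive (Kˣ ⧸ S)) := Fintype.ofFinite _
  refine ⟨Additive (Kˣ ⧸ S), inferInstance, inferInstance, univ.image f, ?_, ?_, ?_⟩
  · have h1 := Subgroup.card_eq_card_quotient_mul_card_subgroup S
    have h2 : Nat.card S = q - 1 := by
      have hi : Function.Injective i := Units.map_injective (algebraMap F K).injective
      rw [← Nat.card_congr (MonoidHom.ofInjective hi).toEquiv, Nat.card_units]
      simp [F]
    have h3 : Nat.card Kˣ = q ^ 3 - 1 := by
      rw [Nat.card_units, GaloisField.card q 3 (by norm_num)]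
    rw [h2, h3] at h1
    have hq2 := hq.out.two_le
    have h4 : q ^ 3 - 1 = (q ^ 2 + q + 1) * (q - 1) := by
      obtain ⟨k, rfl⟩ : ∃ k, q = k + 1 := ⟨q - 1, by omega⟩
      simp only [Nat.add_sub_cancel]
      have : (k + 1) ^ 3 = ((k + 1) ^ 2 + (k + 1) + 1) * k + 1 := by ring
      rw [this, Nat.add_sub_cancel]
    rw [h4] at h1
    have h5 := Nat.eq_of_mul_eq_mul_right (by omega) h1
    rw [← Nat.card_eq_fintype_card]
    exact h5.symm
  · rw [Finset.card_image_of_injective _ hf, Finset.card_univ, Fintype.card_option, ZMod.card]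
  · intro a ha b hb c hc e he h hab
    rw [Finset.mem_image] at ha hb hc he
    obtain ⟨o1, -, rfl⟩ := ha
    obtain ⟨o2, -, rfl⟩ := hb
    obtain ⟨o3, -, rfl⟩ := hc
    obtain ⟨o4, -, rfl⟩ := he
    have h1 : f o1 + f o4 = f o3 + f o2 := by
      rw [sub_eq_sub_iff_add_eq_add] at h
      exact h
    have h2 := key o1 o2 o3 o4 h1
    obtain ⟨h3, h4⟩ := mP_mul h2 (fun h => hab (congrArg f h))
    rw [h3, h4]
    exact ⟨rfl, rfl⟩

end Pool.Agent.Lib.MP_d0f9e0_co.Approx
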