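import Pool.Agent.Lib.MP_d0f9e0_co.Approx.Diag

/-!
# One step of the selection: bounds of the traces
-/

set_option autoImplicit false

open Matrix Finset

namespace Pool.Agent.Lib.MP_d0f9e0_co.Approx

variable {d : ℕ}

theorem moments {C U : Matrix (Fin d) (Fin d) ℂ} {l : Fin d → ℝ} (hU1 : U * star U = 1)
    (hU : star U * U = 1) (hC : IsDiag U l C) (x : Fin d → ℂ) (b : ℕ) :
    qf (C ^ b) x = ((∑ i, wt U x i * l i ^ b : ℝ) : ℂ) :=
  (hC.pow hU1 hU b).qf x

theorem sum_wt_one {U : Matrix (Fin d) (Fin d) ℂ} (hU1 : U * star U = 1) {x : Fin d → ℂ}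
    (hx : star x ⬝ᵥ x = 1) : ∑ i, wt U x i = 1 := by
  have h := sum_wt hU1 x
  rw [hx] at h
  exact_mod_cast h

theorem trace_pow_eq {C U : Matrix (Fin d) (Fin d) ℂ} {l : Fin d → ℝ} (hU1 : U * star U = 1)
    (hU : star U * U = 1) (hC : IsDiag U l C) (x : Fin d → ℂ) (n : ℕ) :
    ((C + rk x) ^ n).trace = ((∑ i, l i ^ n + ∑ j ∈ range n,
      uR (fun b => ∑ i, wt U x i * l i ^ b) j (n - 1 - j) : ℝ) : ℂ) := by
  rw [trace_pow_sub, (hC.pow hU1 hU n).trace hU]
  push_cast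
  congr 1
  apply Finset.sum_congr rfl
  intro j _
  have := uR_eq (moments hU1 hU hC x) j (n - 1 - j)
  rw [this]

/-- upper bound of the trace of the power of a rank one perturbation -/
theorem trace_upper {C U : Matrix (Fin d) (Fin d) ℂ} {l : Fin d → ℝ} (hU1 : U * star U = 1)
    (hU : star U * U = 1) (hC : IsDiag U l C) (hl : ∀ i, 0 ≤ l i) {x : Fin d → ℂ}
    (hx : star x ⬝ᵥ x = 1) (n : ℕ) :
    ((C + rk x) ^ n).trace.re ≤ ∑ i, (l i ^ n + wt U x i * ((l i + 1) ^ n - l i ^ n)) := by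
  rw [trace_pow_eq hU1 hU hC, Complex.ofReal_re, Finset.sum_add_distrib]
  have h1 : ∑ j ∈ range n, uR (fun b => ∑ i, wt U x i * l i ^ b) j (n - 1 - j) ≤
      ∑ j ∈ range n, ∑ i, wt U x i * ((l i + 1) ^ j * l i ^ (n - 1 - j)) :=
    Finset.sum_le_sum fun j _ => uR_le (wt_nonneg U x) (sum_wt_one hU1 hx) hl j _
  have h2 : ∑ j ∈ range n, ∑ i, wt U x i * ((l i + 1) ^ j * l i ^ (n - 1 - j)) =
      ∑ i, wt U x i * ((l i + 1) ^ n - l i ^ n) := by
    rw [Finset.sum_comm]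
    apply Finset.sum_congr rfl
    intro i _
    rw [← Finset.mul_sum]
    have h3 := geom_sum₂_mul (l i + 1) (l i) n
    rw [add_sub_cancel_left, mul_one] at h3
    rw [h3]
  linarith

/-- lower bound for the decrease of the trace -/
theorem trace_lower {C U : Matrix (Fin d) (Fin d) ℂ} {l : Fin d → ℝ} (hU1 : U * star U = 1)
    (hU : star U * U = 1) (hC : IsDiag U l C) {c : ℝ} (hc : 0 < c) (hl : ∀ i, c ≤ l i)
    {V : Matrix (Fin d) (Fin d) ℂ} {m : Fin d → ℝ} (hV1 : V * star V = 1)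
    (hV : star V * V = 1) {x : Fin d → ℂ} (hC1 : IsDiag V m (C + rk x))
    (hx : star x ⬝ᵥ x = 1) {n : ℕ} :
    (C ^ n).trace.re ≤ ∑ i, (m i ^ n - n * (c / (c + 1)) ^ (n - 1) *
      (wt V x i * m i ^ (n - 1))) := by
  have hl0 : ∀ i, 0 ≤ l i := fun i => hc.le.trans (hl i)
  set h : ℕ → ℝ := fun b => ∑ i, wt U x i * l i ^ b with hh
  have hh0 : ∀ b, 0 ≤ h b := fun b =>
    Finset.sum_nonneg fun i _ => mul_nonneg (wt_nonneg U x i) (pow_nonneg (hl0 i) b)
  have h1 := trace_pow_eq hU1 hU hC x n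
  rw [(hC1.pow hV1 hV n).trace hV] at h1
  have h1' : ∑ i, m i ^ n = ∑ i, l i ^ n + ∑ j ∈ range n, uR h j (n - 1 - j) := by
    exact_mod_cast h1
  have h2 : (C ^ n).trace.re = ∑ i, l i ^ n := by
    rw [(hC.pow hU1 hU n).trace hU, Complex.ofReal_re]
  have h3 : (n : ℝ) * h (n - 1) ≤ ∑ j ∈ range n, uR h j (n - 1 - j) := by
    have : ∑ _j ∈ range n, h (n - 1) ≤ ∑ j ∈ range n, uR h j (n - 1 - j) := by
      apply Finset.sum_le_sum
      intro j hj
      rw [Finset.mem_range] at hj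
      have := le_uR hh0 j (n - 1 - j)
      have e : j + (n - 1 - j) = n - 1 := by omega
      rwa [e] at this
    rwa [Finset.sum_const, Finset.card_range, nsmul_eq_mul] at this
  have h4 : ∑ i, wt V x i * m i ^ (n - 1) = uR h (n - 1) 0 := by
    have e1 := moments hV1 hV hC1 x (n - 1)
    have e2 := uR_eq (moments hU1 hU hC x) (n - 1) 0
    rw [pow_zero, Matrix.mul_one, e1] at e2
    exact_mod_cast e2
  have h5 : uR h (n - 1) 0 ≤ ∑ i, wt U x i * ((l i + 1) ^ (n - 1) * l i ^ 0) :=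
    uR_le (wt_nonneg U x) (sum_wt_one hU1 hx) hl0 (n - 1) 0
  have h6 : (c / (c + 1)) ^ (n - 1) * ∑ i, wt U x i * ((l i + 1) ^ (n - 1) * l i ^ 0) ≤
      h (n - 1) := by
    rw [hh, Finset.mul_sum]
    apply Finset.sum_le_sum
    intro i _
    rw [pow_zero, mul_one]
    have h7 : c / (c + 1) * (l i + 1) ≤ l i := by
      rw [div_mul_eq_mul_div, div_le_iff₀ (by linarith)]
      nlinarith [hl i]
    have h8 : (c / (c + 1) * (l i + 1)) ^ (n - 1) ≤ l i ^ (n - 1) := by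
      apply pow_le_pow_left₀ _ h7
      have := hl0 i
      positivity
    rw [mul_pow] at h8
    have := mul_le_mul_of_nonneg_left h8 (wt_nonneg U x i)
    linarith
  have h9 : (n : ℝ) * ((c / (c + 1)) ^ (n - 1) * ∑ i, wt V x i * m i ^ (n - 1)) ≤
      n * h (n - 1) := by
    apply mul_le_mul_of_nonneg_left _ (by positivity)
    rw [h4]
    calc (c / (c + 1)) ^ (n - 1) * uR h (n - 1) 0 ≤
          (c / (c + 1)) ^ (n - 1) * ∑ i, wt U x i * ((l i + 1) ^ (n - 1) * l i ^ 0) := by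
          gcongr
      _ ≤ _ := h6
  rw [Finset.sum_sub_distrib, ← Finset.mul_sum, h2]
  linarith

/-- The Cauchy-Schwarz inequality -/
theorem qf_rk_le {x v : Fin d → ℂ} (hx : star x ⬝ᵥ x = 1) (hv : star v ⬝ᵥ v = 1) :
    (qf (rk x) v).re ≤ 1 := by
  have hx' : ∑ i, ‖x i‖ ^ 2 = 1 := by
    rw [star_dot_self] at hx; exact_mod_cast hx
  have hv' : ∑ i, ‖v i‖ ^ 2 = 1 := by
    rw [star_dot_self] at hv; exact_mod_cast hv
  have h1 : qf (rk x) v = ((‖star x ⬝ᵥ v‖ ^ 2 : ℝ) : ℂ) := by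
    unfold qf
    rw [rk_mulVec, dotProduct_smul, smul_eq_mul]
    have : star v ⬝ᵥ x = star (star x ⬝ᵥ v) := by
      rw [star_dotProduct]
    rw [this]
    push_cast
    rw [← Complex.mul_conj']
    rfl
  rw [h1, Complex.ofReal_re]
  have h2 : ‖star x ⬝ᵥ v‖ ≤ ∑ i, ‖x i‖ * ‖v i‖ := by
    unfold dotProduct
    refine (norm_sum_le _ _).trans (le_of_eq ?_)
    apply Finset.sum_congr rfl
    intro i _
    rw [norm_mul, Pi.star_apply, norm_star]
  have h3 := Finset.sum_mul_sq_le_sq_mul_sq univ (fun i => ‖x i‖) (fun i => ‖v i‖)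
  rw [hx', hv', mul_one] at h3
  exact (pow_le_pow_left₀ (norm_nonneg _) h2 2).trans h3

theorem isHermitian_rk (x : Fin d → ℂ) : (rk x).IsHermitian := by
  unfold rk
  ext i j
  simp only [conjTranspose_apply, vecMulVec_apply, Pi.star_apply, star_mul', star_star]
  ring

theorem IsDiag.isHermitian {U A : Matrix (Fin d) (Fin d) ℂ} {f : Fin d → ℝ}
    (hA : IsDiag U f A) : A.IsHermitian := by
  unfold IsDiag at hA
  rw [hA]
  unfold Matrix.IsHermitian
  rw [conjTranspose_mul, conjTranspose_mul, diagonal_conjTranspose, star_eq_conjTranspose,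
    conjTranspose_conjTranspose, Matrix.mul_assoc]
  congr 2
  congr 1
  ext i
  simp

/-- eigenvalues after subtraction of a rank one projection -/
theorem exists_diag_sub {C V : Matrix (Fin d) (Fin d) ℂ} {m : Fin d → ℝ}
    (hV1 : V * star V = 1) {x : Fin d → ℂ} (hC1 : IsDiag V m (C + rk x))
    (hx : star x ⬝ᵥ x = 1) {c : ℝ} (hm : ∀ i, c + 1 ≤ m i) :
    ∃ (U : Matrix (Fin d) (Fin d) ℂ) (l : Fin d → ℝ), U * star U = 1 ∧ star U * U = 1 ∧
      IsDiag U l C ∧ ∀ i, c ≤ l i := by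
  have hC : C.IsHermitian := by
    have h1 := hC1.isHermitian.sub (isHermitian_rk x)
    rwa [add_sub_cancel_right] at h1
  obtain ⟨U, l, hU1, hU, hUl⟩ := exists_diag hC
  refine ⟨U, l, hU1, hU, hUl, fun i => ?_⟩
  set v : Fin d → ℂ := U *ᵥ Pi.single i 1 with hv
  have hUv : star U *ᵥ v = Pi.single i 1 := by
    rw [hv, mulVec_mulVec, hU, one_mulVec]
  have hwt : ∀ k, wt U v k = if k = i then 1 else 0 := by
    intro k
    unfold wt
    rw [hUv]
    by_cases h : k = i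
    · subst h; simp
    · simp [h]
  have hv1 : star v ⬝ᵥ v = 1 := by
    rw [← sum_wt hU1 v]
    simp only [hwt]
    simp
  have h1 := hUl.qf v
  simp only [hwt] at h1
  have h1' : qf C v = ((l i : ℝ) : ℂ) := by rw [h1]; simp
  have h2 := hC1.qf v
  rw [qf_add, h1'] at h2
  have h3 := congrArg Complex.re h2
  rw [Complex.add_re, Complex.ofReal_re, Complex.ofReal_re] at h3
  have h4 := qf_rk_le hx hv1
  have h5 : c + 1 ≤ ∑ k, wt V v k * m k := by
    calc c + 1 = ∑ k, wt V v k * (c + 1) := by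
          rw [← Finset.sum_mul, sum_wt_one hV1 hv1, one_mul]
      _ ≤ _ := Finset.sum_le_sum fun k _ => mul_le_mul_of_nonneg_left (hm k) (wt_nonneg V v k)
  linarith

end Pool.Agent.Lib.MP_d0f9e0_co.Approx
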