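import Pool.Agent.Lib.MP_d0f9e0_co.Approx.Step
import Pool.Agent.Lib.MP_d0f9e0_co.Approx.Deletion

/-!
# One step of the selection
-/

set_option autoImplicit false

open Matrix Finset

namespace Pool.Agent.Lib.MP_d0f9e0_co.Approx

/-- scalar inequality, upper side -/
theorem scalar_upper {s w p : ℝ} {n : ℕ} (hs : 4 ≤ s) (hw : 3 / 4 * s ≤ w) (hp0 : 0 < p)
    (hp1 : p ≤ 1) (hn : (n : ℝ) ≤ 3 / 4 * s) :
    (w - p) ^ n + p * ((w - p + 1) ^ n - (w - p) ^ n) ≤
      Real.exp (8 * (n / s) ^ 2 * p) * w ^ n := by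
  have hs0 : 0 < s := by linarith
  have hw0 : 0 < w := by linarith
  set u := (n : ℝ) / w with hu
  have hu0 : 0 ≤ u := by positivity
  have hu1 : u ≤ 1 := by rw [hu, div_le_one hw0]; linarith
  have h1 : (w - p) ^ n ≤ w ^ n * Real.exp (-(p * u)) := by
    have h2 : w - p ≤ w * Real.exp (-(p / w)) := by
      have h3 := Real.add_one_le_exp (-(p / w))
      have h4 := mul_le_mul_of_nonneg_left h3 hw0.le
      have h5 : w * (-(p / w) + 1) = w - p := by field_simp; ring
      linarith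
    have h6 : 0 ≤ w - p := by linarith
    calc (w - p) ^ n ≤ (w * Real.exp (-(p / w))) ^ n := pow_le_pow_left₀ h6 h2 n
      _ = _ := by
        rw [mul_pow, ← Real.exp_nat_mul, hu]
        congr 2
        ring
  have h2 : (w - p + 1) ^ n ≤ w ^ n * (Real.exp (-(p * u)) * Real.exp u) := by
    have h3 : w - p + 1 ≤ w * Real.exp ((1 - p) / w) := by
      have h3 := Real.add_one_le_exp ((1 - p) / w)
      have h4 := mul_le_mul_of_nonneg_left h3 hw0.le
      have h5 : w * ((1 - p) / w + 1) = w - p + 1 := by field_simp; ring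
      linarith
    have h6 : 0 ≤ w - p + 1 := by linarith
    calc (w - p + 1) ^ n ≤ (w * Real.exp ((1 - p) / w)) ^ n := pow_le_pow_left₀ h6 h3 n
      _ = _ := by
        rw [mul_pow, ← Real.exp_nat_mul, ← Real.exp_add, hu]
        congr 2
        ring
  have h3 : (w - p) ^ n + p * ((w - p + 1) ^ n - (w - p) ^ n) ≤
      w ^ n * (Real.exp (-(p * u)) * (p * Real.exp (u * 1) + (1 - p))) := by
    have e : (w - p) ^ n + p * ((w - p + 1) ^ n - (w - p) ^ n) =
        (1 - p) * (w - p) ^ n + p * (w - p + 1) ^ n := by ring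
    rw [e, mul_one]
    have h4 := mul_le_mul_of_nonneg_left h1 (sub_nonneg.2 hp1)
    have h5 := mul_le_mul_of_nonneg_left h2 hp0.le
    linarith
  refine h3.trans ?_
  have h4 := factor_le (p := p) (θ := u) (c := 1) hp0.le hu0 hu1 (by norm_num)
  have h5 : Real.exp (-(p * u)) * (p * Real.exp (u * 1) + (1 - p)) ≤
      Real.exp (8 * (n / s) ^ 2 * p) := by
    calc _ ≤ Real.exp (-(p * u)) * Real.exp (p * (u * 1) + p * u ^ 2) := by gcongr
      _ = Real.exp (p * u ^ 2) := by rw [← Real.exp_add]; congr 1; ring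
      _ ≤ _ := by
        apply Real.exp_le_exp.2
        have h6 : u ≤ 4 / 3 * (n / s) := by
          rw [hu, div_le_iff₀ hw0]
          have : (n : ℝ) = n / s * s := by field_simp
          have h7 : 0 ≤ (n : ℝ) / s := by positivity
          nlinarith
        have h8 : u ^ 2 ≤ 8 * (n / s) ^ 2 := by
          have := pow_le_pow_left₀ hu0 h6 2
          have h9 : 0 ≤ ((n : ℝ) / s) ^ 2 := by positivity
          nlinarith
        nlinarith
  calc _ ≤ w ^ n * Real.exp (8 * (n / s) ^ 2 * p) := by gcongr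
    _ = _ := mul_comm _ _

/-- scalar inequality, lower side -/
theorem scalar_lower {s w p : ℝ} {n : ℕ} (hs : 4 ≤ s) (hw : 3 / 4 * s ≤ w) (hp0 : 0 < p)
    (hp1 : p ≤ 1) (hn : 2 * (n : ℝ) ≤ s) (hn1 : 1 ≤ n) :
    (w + p) ^ n - n * (s / 2 / (s / 2 + 1)) ^ (n - 1) * (p * (w + p) ^ (n - 1)) ≤
      Real.exp (8 * (n / s) ^ 2 * p) * w ^ n := by
  have hs0 : 0 < s := by linarith
  have hw0 : 0 < w := by linarith
  have hn0 : (1 : ℝ) ≤ n := by exact_mod_cast hn1
  set θ := (n : ℝ) / s with hθ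
  have hθ0 : 0 < θ := by positivity
  have hθ1 : 2 * θ ≤ 1 := by
    rw [hθ, mul_div_assoc', div_le_one hs0]
    exact hn
  set β := (s / 2 / (s / 2 + 1)) ^ (n - 1) with hβ
  have hβ1 : 1 - 2 * θ ≤ β := by
    have h1 : s / 2 / (s / 2 + 1) = 1 + (-(1 / (s / 2 + 1))) := by field_simp; ring
    have h2 := one_add_mul_le_pow (a := -(1 / (s / 2 + 1))) (by
      have : 1 / (s / 2 + 1) ≤ 1 := by rw [div_le_one (by positivity)]; linarith
      linarith) (n - 1)
    rw [hβ, h1]
    refine le_trans ?_ h2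
    have h3 : ((n - 1 : ℕ) : ℝ) * (1 / (s / 2 + 1)) ≤ 2 * θ := by
      have h4 : ((n - 1 : ℕ) : ℝ) ≤ n := by exact_mod_cast Nat.sub_le n 1
      have h5 : 1 / (s / 2 + 1) ≤ 2 / s := by
        rw [div_le_div_iff₀ (by positivity) hs0]; linarith
      calc ((n - 1 : ℕ) : ℝ) * (1 / (s / 2 + 1)) ≤ n * (2 / s) := by gcongr
        _ = 2 * θ := by rw [hθ]; ring
    linarith
  set m := w + p with hm
  have hm0 : 0 < m := by linarith
  have h1 : m ^ n - n * β * (p * m ^ (n - 1)) = m ^ n * (1 - n * β * p / m) := by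
    obtain ⟨k, rfl⟩ : ∃ k, n = k + 1 := ⟨n - 1, by omega⟩
    rw [Nat.add_sub_cancel, pow_succ]
    field_simp
  rw [h1]
  have h2 : m ^ n ≤ w ^ n * Real.exp (n * p / w) := by
    have h3 : m ≤ w * Real.exp (p / w) := by
      have h3 := Real.add_one_le_exp (p / w)
      have h4 := mul_le_mul_of_nonneg_left h3 hw0.le
      have h5 : w * (p / w + 1) = m := by rw [hm]; field_simp; ring
      linarith
    calc m ^ n ≤ (w * Real.exp (p / w)) ^ n := pow_le_pow_left₀ hm0.le h3 n
      _ = _ := by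
        rw [mul_pow, ← Real.exp_nat_mul]
        congr 2
        ring
  have h3 : 1 - n * β * p / m ≤ Real.exp (-(n * β * p / m)) := by
    have := Real.add_one_le_exp (-(n * β * p / m))
    linarith
  have h4 : n * p / w - n * β * p / m ≤ 8 * θ ^ 2 * p := by
    have h5 : n * (1 - 2 * θ) * p / m ≤ n * β * p / m := by gcongr
    have h6 : n * p / w - n * (1 - 2 * θ) * p / m = n * p / w * ((p + 2 * θ * w) / m) := by
      rw [hm]
      field_simp
      ring
    have h7 : (n : ℝ) * p / w ≤ 4 / 3 * θ * p := by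
      rw [div_le_iff₀ hw0]
      have : (n : ℝ) = θ * s := by rw [hθ]; field_simp
      rw [this]
      have h8 : 0 ≤ θ * p := by positivity
      nlinarith
    have h8 : (p + 2 * θ * w) / m ≤ 6 * θ := by
      rw [div_le_iff₀ hm0, hm]
      have h9 : 1 ≤ θ * s := by
        have : θ * s = n := by rw [hθ]; field_simp
        rw [this]; exact hn0
      have h10 : 0 ≤ θ * p := by positivity
      nlinarith
    have h9 : n * p / w * ((p + 2 * θ * w) / m) ≤ 4 / 3 * θ * p * (6 * θ) := by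
      apply mul_le_mul h7 h8 (by positivity) (by positivity)
    nlinarith
  have hexp : Real.exp (n * p / w) * Real.exp (-(n * β * p / m)) ≤ Real.exp (8 * θ ^ 2 * p) := by
    rw [← Real.exp_add]
    apply Real.exp_le_exp.2
    linarith
  calc m ^ n * (1 - n * β * p / m) ≤ m ^ n * Real.exp (-(n * β * p / m)) := by gcongr
    _ ≤ w ^ n * Real.exp (n * p / w) * Real.exp (-(n * β * p / m)) := by gcongr
    _ = w ^ n * (Real.exp (n * p / w) * Real.exp (-(n * β * p / m))) := by ring
    _ ≤ w ^ n * Real.exp (8 * θ ^ 2 * p) := by gcongr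
    _ = _ := mul_comm _ _

end Pool.Agent.Lib.MP_d0f9e0_co.Approx
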